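import Pool.Agent.Lib.MP_93a6aa_co.Proc

/-! The two-type branching estimate for the weighted number of nearly tight walks. -/

set_option linter.unusedSectionVars false

namespace MP93
open Finset SimpleGraph

namespace Setup
variable {V : Type} {G : SimpleGraph V} (T : Setup G)
variable [Fintype V] [DecidableEq V] [DecidableRel G.Adj]

def Late (s : Bool) (i : ℕ) (y w : V) (κ : ℝ) : Prop :=
  ∃ a0 a1, InA κ a0 a1 ∧ ∀ F : (V → St) → ℝ, (∀ ω, 0 ≤ F ω) → Ind (Br G (T.R + i) y w) F →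
    ∑ ω, F ω * (wt s (T.X ω y) (T.X ω w) * T.N s i y w ω) ≤ ∑ ω, F ω * sel s (T.X ω y).2 a0 a1

def Early (s : Bool) (i : ℕ) (y w : V) (κ : ℝ) : Prop :=
  ∃ d0 d1, InD κ d0 d1 ∧ ∀ β0 β1 : ℝ, 0 ≤ β0 → 0 ≤ β1 →
    ∑ ω, sel s (T.X ω w).2 β0 β1 * T.N s i y w ω ≤ (β0 * d0 + β1 * d1) * Fintype.card (V → St)

lemma early_F {s : Bool} {i : ℕ} {y w : V} (h : T.t w < T.t y) {β0 β1 c : ℝ}
    (hc : ∑ ω, sel s (T.X ω w).2 β0 β1 * T.N s i y w ω ≤ c * Fintype.card (V → St))
    (F : (V → St) → ℝ) (hF : ∀ ω, 0 ≤ F ω) (hI : Ind (Br G (T.R + i) y w) F) :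
    ∑ ω, F ω * (sel s (T.X ω w).2 β0 β1 * T.N s i y w ω) ≤ c * ∑ ω, F ω := by
  classical
  have hN : (0 : ℝ) < Fintype.card (V → St) := by exact_mod_cast Fintype.card_pos
  have e := indep_sum (univ.filter (Br G (T.R + i) y w))
    (fun ω => sel s (T.X ω w).2 β0 β1 * T.N s i y w ω) F
    (fun ω ω' e => by
      have e' : ∀ v, Br G (T.R + i) y w v → ω v = ω' v := fun v hv => e v (by simpa using hv)
      have e1 : T.X ω w = T.X ω' w := T.X_dep h ω ω' fun v hv => e' v (hv.mono (by omega))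
      simp only [e1, T.N_dep s i h ω ω' e'])
    (fun ω ω' e => hI ω ω' fun v hv => e v (by simpa using hv))
  refine le_of_mul_le_mul_right ?_ hN
  have h0 : 0 ≤ ∑ ω, F ω := sum_nonneg fun ω _ => hF ω
  simp only [mul_comm (F _)]
  rw [e]
  nlinarith

lemma Late.mono {s : Bool} {i : ℕ} {y w : V} {κ κ' : ℝ} (h : T.Late s i y w κ) (hk : κ ≤ κ') :
    T.Late s i y w κ' := by
  obtain ⟨a0, a1, ⟨h1, h2, h3, h4⟩, h5⟩ := h
  exact ⟨a0, a1, ⟨h1, h2, by linarith, by linarith⟩, h5⟩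

lemma Early.mono {s : Bool} {i : ℕ} {y w : V} {κ κ' : ℝ} (h : T.Early s i y w κ) (hk : κ ≤ κ') :
    T.Early s i y w κ' := by
  obtain ⟨a0, a1, ⟨h1, h2, h3, h4⟩, h5⟩ := h
  exact ⟨a0, a1, ⟨h1, h2, by linarith, by linarith⟩, h5⟩

structure Tri (G : SimpleGraph V) (y w x h : V) : Prop where
  yw : G.Adj y w
  wx : G.Adj w x
  wh : G.Adj w h
  xy : x ≠ y
  hy : h ≠ y
  xh : x ≠ h
  all : ∀ z, G.Adj w z → z = y ∨ z = x ∨ z = h

lemma Tri.symm {y w x h : V} (H : Tri G y w x h) : Tri G y w h x :=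
  ⟨H.yw, H.wh, H.wx, H.hy, H.xy, H.xh.symm, fun z hz => by have := H.all z hz; tauto⟩

lemma Tri.erase {y w x h : V} (H : Tri G y w x h) : (G.neighborFinset w).erase y = {x, h} := by
  ext z
  simp only [mem_erase, mem_neighborFinset, mem_insert, mem_singleton]
  constructor
  · rintro ⟨h1, h2⟩; exact (H.all z h2).resolve_left h1
  · rintro (rfl | rfl)
    · exact ⟨H.xy, H.wx⟩
    · exact ⟨H.hy, H.wh⟩

lemma exists_tri (hG : G.IsRegularOfDegree 3) {y w : V} (h : G.Adj y w) :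
    ∃ x z, Tri G y w x z := by
  have hc : ((G.neighborFinset w).erase y).card = 2 := by
    rw [card_erase_of_mem (by simpa using h.symm), card_neighborFinset_eq_degree, hG w]
  obtain ⟨x, z, hne, e⟩ := card_eq_two.1 hc
  have hx : x ∈ (G.neighborFinset w).erase y := by rw [e]; simp
  have hz : z ∈ (G.neighborFinset w).erase y := by rw [e]; simp
  simp only [mem_erase, mem_neighborFinset] at hx hz
  refine ⟨x, z, h, hx.2, hz.2, hx.1, hz.1, hne, fun u hu => ?_⟩
  by_cases c : u = y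
  · exact Or.inl c
  · have : u ∈ (G.neighborFinset w).erase y := by simp [c, hu]
    rw [e] at this
    exact Or.inr (by simpa using this)

lemma N_succ {y w x h : V} (H : Tri G y w x h) (s : Bool) (i : ℕ) (ω : V → St) :
    T.N s (i + 1) y w ω = wt s (T.X ω w) (T.X ω x) * T.N s i w x ω +
      wt s (T.X ω w) (T.X ω h) * T.N s i w h ω := by
  rw [N, H.erase, sum_pair H.xh]

variable {s : Bool} {i : ℕ} {y w x h : V} {κ : ℝ}

lemma sub_br (H : Tri G y w x h) {k : ℕ} (hk : k ≤ T.R + i) (v : V)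
    (hv : Br G k w x v ∨ v = w) : Br G (T.R + (i + 1)) y w v := by
  rcases hv with hv | rfl
  · exact Br.step H.wx H.xy (hv.mono hk)
  · exact Br.here _ _ _

/-- the term through a later neighbour, in the late case -/
lemma late_child (H : Tri G y w x h) (hg : 2 * T.R + i + 3 < T.g) (ty : T.t y < T.t w)
    (tx : T.t w < T.t x) {a0 a1 : ℝ}
    (hL : ∀ F : (V → St) → ℝ, (∀ ω, 0 ≤ F ω) → Ind (Br G (T.R + i) w x) F →
      ∑ ω, F ω * (wt s (T.X ω w) (T.X ω x) * T.N s i w x ω) ≤ ∑ ω, F ω * sel s (T.X ω w).2 a0 a1)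
    (F : (V → St) → ℝ) (hF : ∀ ω, 0 ≤ F ω) (hI : Ind (Br G (T.R + (i + 1)) y w) F) :
    ∑ ω, F ω * (wt s (T.X ω y) (T.X ω w) * (wt s (T.X ω w) (T.X ω x) * T.N s i w x ω)) ≤
      ∑ ω, F ω * (wt s (T.X ω y) (T.X ω w) * sel s (T.X ω w).2 a0 a1) := by
  have := hL (fun ω => F ω * wt s (T.X ω y) (T.X ω w))
    (fun ω => mul_nonneg (hF ω) (wt_nonneg _ _ _)) (fun ω ω' e => by
      have e' : ∀ v, ¬ Br G (T.R + (i + 1)) y w v → ω v = ω' v :=
        fun v hv => e v fun h' => hv (T.sub_br H le_rfl v (Or.inl h'))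
      have e1 : T.X ω y = T.X ω' y := T.X_ind (by omega) H.yw ty ω ω' e'
      have e2 : T.X ω w = T.X ω' w := T.X_ind (by omega) H.wx tx ω ω' e
      simp only [hI ω ω' e', e1, e2])
  simpa only [mul_assoc] using this

lemma late1 (H : Tri G y w x h) (hg : 2 * T.R + i + 3 < T.g) (hw : w ∉ T.S) (ty : T.t y < T.t w)
    (tx : T.t w < T.t x) (th : T.t w < T.t h) (hx : T.Late s i w x κ) (hh : T.Late s i w h κ) :
    T.Late s (i + 1) y w (988 / 1000 * κ) := by
  obtain ⟨x0, x1, hx1, hx2⟩ := hx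
  obtain ⟨y0, y1, hy1, hy2⟩ := hh
  refine ⟨_, _, inv1 hx1 hy1, fun F hF hI => ?_⟩
  have e1 := T.late_child H hg ty tx hx2 F hF hI
  have e2 := T.late_child H.symm hg ty th hy2 F hF hI
  have hone := T.one (u := y) hw (fun z hz hz' => by
    rcases H.all z hz with rfl | rfl | rfl
    · rfl
    · omega
    · omega)
  simp only [T.N_succ H, mul_add, sum_add_distrib]
  refine (add_le_add e1 e2).trans (le_of_eq ?_)
  rw [← sum_add_distrib]
  refine sum_congr rfl fun ω _ => ?_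
  rw [← mul_add, hone ω, one_late]

lemma late2 (H : Tri G y w x h) (hg : 2 * T.R + i + 3 < T.g) (hw : w ∉ T.S) (ty : T.t y < T.t w)
    (tx : T.t w < T.t x) (th : T.t h < T.t w) (hx : T.Late s i w x κ) (hh : T.Early s i w h κ) :
    T.Late s (i + 1) y w (988 / 1000 * κ) := by
  obtain ⟨x0, x1, hx1, hx2⟩ := hx
  obtain ⟨y0, y1, hy1, hy2⟩ := hh
  refine ⟨_, _, inv2 hx1 hy1, fun F hF hI => ?_⟩
  have e1 := T.late_child H hg ty tx hx2 F hF hI
  obtain ⟨o, ho⟩ := T.two hw H.yw.symm H.wh H.hy.symm ty th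
  have hXy := T.X_ind (k := T.R + (i + 1)) (by omega) H.yw ty
  have e2 := T.sym12 hw (by omega) H.wh th ho (hXy.mono (T.sub_br H.symm (by omega))) F
    (hI.mono (T.sub_br H.symm (by omega))) (fun a z => wt s a z * sel s z.2 x0 x1) _
    (fun a b c => tabU o s a b c x0 x1)
  have e3 := T.sym6 hw (k := T.R + i) (by omega) (by omega) H.wh th ho
    (hXy.mono (T.sub_br H.symm le_rfl)) (fun ω => F ω * T.N s i w h ω) (fun a b ω => by
      rw [hI.mono (T.sub_br H.symm le_rfl) _ _ (T.sg_out _ b _ w ω),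
        T.N_eqv i w h (T.sg_eqv _ b _ w ω (T.tr.notMem (by omega) H.wh)) (Or.inl th)]) s
  have e4 := T.early_F th (hy2 1 1 zero_le_one zero_le_one) F hF
    (hI.mono fun v hv => T.sub_br H.symm le_rfl v (Or.inl hv))
  simp only [sel_self, one_mul] at e4
  simp only [T.N_succ H, mul_add, sum_add_distrib]
  have e5 : ∑ ω, F ω * (wt s (T.X ω y) (T.X ω w) * (wt s (T.X ω w) (T.X ω h) * T.N s i w h ω)) =
      ∑ ω, F ω * T.N s i w h ω * (wt s (T.X ω y) (T.X ω w) * wt s (T.X ω w) (T.X ω h)) :=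
    sum_congr rfl fun ω _ => by ring
  have e6 : ∑ ω, F ω * sel s (T.X ω y).2
      (151 / 600 * x0 + 267 / 800 * x1 + (40201 / 120000 * y0 + 40201 / 120000 * y1))
      (17 / 200 * x0 + 803 / 2400 * x1 + (40201 / 120000 * y0 + 40201 / 120000 * y1)) =
      ∑ ω, F ω * sel s (T.X ω y).2 (151 / 600 * x0 + 267 / 800 * x1)
        (17 / 200 * x0 + 803 / 2400 * x1) + 40201 / 120000 * ((y0 + y1) * ∑ ω, F ω) := by
    rw [mul_sum, mul_sum, ← sum_add_distrib]
    refine sum_congr rfl fun ω _ => ?_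
    unfold sel; split_ifs <;> ring
  rw [e5, e3, e6]
  linarith

lemma early1 (H : Tri G y w x h) (hg : 2 * T.R + i + 3 < T.g) (hw : w ∉ T.S) (ty : T.t w < T.t y)
    (tx : T.t w < T.t x) (hx : T.Late s i w x κ) (hh : T.Early s i w h κ) :
    T.Early s (i + 1) y w (988 / 1000 * κ) := by
  obtain ⟨x0, x1, hx1, hx2⟩ := hx
  obtain ⟨y0, y1, hy1, hy2⟩ := hh
  refine ⟨_, _, inv3 hx1 hy1, fun β0 β1 h0 h1 => ?_⟩
  have hone := T.one (u := h) hw (fun z hz hz' => by
    rcases H.all z hz with rfl | rfl | rfl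
    · omega
    · omega
    · rfl)
  have e1 := hx2 (fun ω => sel s (T.X ω w).2 β0 β1) (fun ω => sel_nonneg _ _ h0 h1)
    (fun ω ω' e => by
      have e2 : T.X ω w = T.X ω' w := T.X_ind (by omega) H.wx tx ω ω' e
      simp only [e2])
  have e2 : ∑ ω, sel s (T.X ω w).2 β0 β1 * sel s (T.X ω w).2 x0 x1 =
      ∑ ω, sel s (T.X ω w).2 (β0 * x0) (β1 * x1) :=
    sum_congr rfl fun ω _ => by unfold sel; split_ifs <;> rfl
  rw [e2, T.half ty] at e1
  have e3 := hy2 (β1 / 200) β0 (by positivity) h0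
  have e4 : ∑ ω, sel s (T.X ω w).2 β0 β1 * (wt s (T.X ω w) (T.X ω h) * T.N s i w h ω) =
      ∑ ω, sel s (T.X ω h).2 (β1 / 200) β0 * T.N s i w h ω :=
    sum_congr rfl fun ω _ => by rw [← mul_assoc, hone ω, one_early]
  simp only [T.N_succ H, mul_add, sum_add_distrib]
  rw [e4]
  linarith

lemma early_par (H : Tri G y w x h) (hg : 2 * T.R + i + 3 < T.g) (hw : w ∉ T.S)
    (tx : T.t x < T.t w) (th : T.t h < T.t w) (β0 β1 : ℝ) :
    ∑ ω, sel s (T.X ω w).2 β0 β1 * (wt s (T.X ω w) (T.X ω x) * T.N s i w x ω) =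
      ∑ ω, sel s (T.X ω x).2 (803 / 2400 * β0 + 17 / 200 * β1) (267 / 800 * β0 + 151 / 600 * β1) *
        T.N s i w x ω := by
  obtain ⟨o, ho⟩ := T.two hw H.wx H.wh H.xh tx th
  have hd : ∀ k, k ≤ T.R + i → ∀ v, Br G k w x v → (Br G T.R w h v ∨ v = w) → False := by
    rintro k hk v h1 (h2 | rfl)
    · exact T.tr.disj (by omega) H.wx H.wh H.xh h1 h2
    · exact T.tr.notMem (by omega) H.wx h1
  have e := T.sym12 hw (by omega) H.wh th ho ((T.X_dep tx).ind (hd _ (by omega))) (T.N s i w x)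
    ((T.N_dep s i tx).ind (hd _ le_rfl)) (fun a z => wt s z a * sel s z.2 β0 β1) _
    (fun a b c => tabW o s a b c β0 β1)
  simp only [mul_comm (T.N s i w x _)] at e
  rw [← e]
  exact sum_congr rfl fun ω _ => by ring

lemma early2 (H : Tri G y w x h) (hg : 2 * T.R + i + 3 < T.g) (hw : w ∉ T.S)
    (tx : T.t x < T.t w) (th : T.t h < T.t w) (hx : T.Early s i w x κ) (hh : T.Early s i w h κ) :
    T.Early s (i + 1) y w (988 / 1000 * κ) := by
  obtain ⟨x0, x1, hx1, hx2⟩ := hx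
  obtain ⟨y0, y1, hy1, hy2⟩ := hh
  refine ⟨_, _, inv4 hx1 hy1, fun β0 β1 h0 h1 => ?_⟩
  simp only [T.N_succ H, mul_add, sum_add_distrib]
  rw [T.early_par H hg hw tx th, T.early_par H.symm hg hw th tx]
  have e1 := hx2 (803 / 2400 * β0 + 17 / 200 * β1) (267 / 800 * β0 + 151 / 600 * β1)
    (by positivity) (by positivity)
  have e2 := hy2 (803 / 2400 * β0 + 17 / 200 * β1) (267 / 800 * β0 + 151 / 600 * β1)
    (by positivity) (by positivity)
  linarith

/-- a crude bound in either case -/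
lemma crude {z : V} (ha : G.Adj w z) (hL : T.t w < T.t z → T.Late s i w z κ)
    (hE : T.t z < T.t w → T.Early s i w z κ) (F : (V → St) → ℝ) (hF : ∀ ω, 0 ≤ F ω)
    (hI : Ind (Br G (T.R + i) w z) F) :
    ∑ ω, F ω * (wt s (T.X ω w) (T.X ω z) * T.N s i w z ω) ≤ 204 * κ * ∑ ω, F ω := by
  have h0 : 0 ≤ ∑ ω, F ω := sum_nonneg fun ω _ => hF ω
  rcases Nat.lt_or_gt_of_ne (T.tne w z ha) with c | c
  · obtain ⟨a0, a1, ⟨h1, h2, h3, h4⟩, h5⟩ := hL c
    refine (h5 F hF hI).trans ?_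
    rw [mul_sum]
    refine sum_le_sum fun ω _ => ?_
    rw [mul_comm]
    exact mul_le_mul_of_nonneg_right (sel_le _ _ (by linarith) (by linarith)) (hF ω)
  · obtain ⟨d0, d1, ⟨h1, h2, h3, h4⟩, h5⟩ := hE c
    have e := T.early_F c (h5 200 200 (by norm_num) (by norm_num)) F hF hI
    simp only [sel_self] at e
    refine le_trans (sum_le_sum fun ω _ => ?_) (e.trans (mul_le_mul_of_nonneg_right (by linarith) h0))
    exact mul_le_mul_of_nonneg_left (mul_le_mul_of_nonneg_right (wt_le _ _ _) (T.N_nonneg _ _ _ _ _))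
      (hF ω)

lemma crude_N (H : Tri G y w x h) (hL : ∀ z, G.Adj w z → z ≠ y → T.t w < T.t z → T.Late s i w z κ)
    (hE : ∀ z, G.Adj w z → z ≠ y → T.t z < T.t w → T.Early s i w z κ) (F : (V → St) → ℝ)
    (hF : ∀ ω, 0 ≤ F ω) (hI : Ind (Br G (T.R + (i + 1)) y w) F) :
    ∑ ω, F ω * T.N s (i + 1) y w ω ≤ 408 * κ * ∑ ω, F ω := by
  have e1 := T.crude H.wx (hL x H.wx H.xy) (hE x H.wx H.xy) F hF
    (hI.mono fun v hv => T.sub_br H le_rfl v (Or.inl hv))
  have e2 := T.crude H.wh (hL h H.wh H.hy) (hE h H.wh H.hy) F hF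
    (hI.mono fun v hv => T.sub_br H.symm le_rfl v (Or.inl hv))
  simp only [T.N_succ H, mul_add, sum_add_distrib]
  linarith

lemma late_of_le {c : ℝ} (hc : 0 ≤ c) (hκ : 800 * c ≤ κ)
    (hN : ∀ F : (V → St) → ℝ, (∀ ω, 0 ≤ F ω) → Ind (Br G (T.R + i) y w) F →
      ∑ ω, F ω * T.N s i y w ω ≤ c * ∑ ω, F ω) : T.Late s i y w κ := by
  refine ⟨200 * c, 200 * c, ⟨by linarith, by linarith, by linarith, by linarith⟩, fun F hF hI => ?_⟩
  have e := hN F hF hI
  simp only [sel_self]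
  rw [← sum_mul]
  have : ∑ ω, F ω * (wt s (T.X ω y) (T.X ω w) * T.N s i y w ω) ≤
      ∑ ω, 200 * (F ω * T.N s i y w ω) := sum_le_sum fun ω _ => by
    have := mul_le_mul_of_nonneg_right (wt_le s (T.X ω y) (T.X ω w))
      (mul_nonneg (hF ω) (T.N_nonneg s i y w ω))
    linarith
  rw [← mul_sum] at this
  linarith

lemma early_of_le {c : ℝ} (hc : 0 ≤ c) (hκ : 800 * c ≤ κ)
    (hN : ∀ F : (V → St) → ℝ, (∀ ω, 0 ≤ F ω) → Ind (Br G (T.R + i) y w) F →
      ∑ ω, F ω * T.N s i y w ω ≤ c * ∑ ω, F ω) : T.Early s i y w κ := by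
  refine ⟨c, c, ⟨hc, hc, by linarith, by linarith⟩, fun β0 β1 h0 h1 => ?_⟩
  have e := hN (fun _ => β0 + β1) (fun _ => by positivity) (fun _ _ _ => rfl)
  simp only [sum_const, card_univ, nsmul_eq_mul] at e
  refine le_trans (sum_le_sum fun ω _ => ?_) (e.trans (le_of_eq (by ring)))
  exact mul_le_mul_of_nonneg_right (sel_le _ _ (by linarith) (by linarith)) (T.N_nonneg _ _ _ _ _)

def NoS (j : ℕ) (y w : V) : Prop := ∀ k v, k < j → Br G k y w v → v ∉ T.S

theorem claims (hG : G.IsRegularOfDegree 3) (hD : (988 / 989 : ℝ) ^ T.D ≤ 1 / 400000) (s : Bool)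
    (i : ℕ) : ∀ y w j, 2 * T.R + T.D + i + 2 < T.g → G.Adj y w → j ≤ T.D → T.NoS j y w →
      (T.t y < T.t w → T.Late s i y w
        (800 / (988 / 989) ^ T.D * (989 / 1000) ^ i * (988 / 989) ^ j)) ∧
      (T.t w < T.t y → T.Early s i y w
        (800 / (988 / 989) ^ T.D * (989 / 1000) ^ i * (988 / 989) ^ j)) := by
  have hγ : (0 : ℝ) < (988 / 989) ^ T.D := by positivity
  induction i with
  | zero =>
    intro y w j _ _ hj _
    have h1 : (988 / 989 : ℝ) ^ T.D ≤ (988 / 989) ^ j :=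
      pow_le_pow_of_le_one (by norm_num) (by norm_num) hj
    have h2 : (800 : ℝ) * 1 ≤ 800 / (988 / 989) ^ T.D * (989 / 1000) ^ 0 * (988 / 989) ^ j := by
      rw [pow_zero, mul_one, mul_one, div_mul_eq_mul_div, le_div_iff₀ hγ]; linarith
    exact ⟨fun _ => T.late_of_le zero_le_one h2 fun F _ _ => by simp [N],
      fun _ => T.early_of_le zero_le_one h2 fun F _ _ => by simp [N]⟩
  | succ i ih =>
    intro y w j hg ha hj hS
    obtain ⟨x, h, H⟩ := exists_tri hG ha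
    by_cases hw : w ∈ T.S
    · obtain rfl : j = 0 := by
        by_contra hc
        exact hS 0 w (by omega) (Br.here _ _ _) hw
      have hch := fun z (hz : G.Adj w z) => ih w z T.D (by omega) hz le_rfl (fun k v hk hv hvS => by
        obtain rfl := T.sep w hw v hvS (((Near.adj hz).trans hv.near).mono (by omega))
        exact T.tr.notMem (by omega) hz hv)
      have hN := T.crude_N H (fun z hz _ => (hch z hz).1) (fun z hz _ => (hch z hz).2)
      have h2 : 800 * (408 * (800 / (988 / 989) ^ T.D * (989 / 1000) ^ i * (988 / 989) ^ T.D)) ≤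
          (800 / (988 / 989) ^ T.D * (989 / 1000) ^ (i + 1) * (988 / 989) ^ 0 : ℝ) := by
        have : (0 : ℝ) ≤ 800 / (988 / 989) ^ T.D * (989 / 1000) ^ i := by positivity
        rw [pow_succ, ← mul_assoc (800 / _)]
        nlinarith
      exact ⟨fun _ => T.late_of_le (by positivity) h2 hN, fun _ => T.early_of_le (by positivity) h2 hN⟩
    · have hch := fun z (hz : G.Adj w z) (hzy : z ≠ y) => ih w z (j - 1) (by omega) hz (by omega)
        (fun k v hk hv => hS (k + 1) v (by omega) (Br.step hz hzy hv))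
      have hx := hch x H.wx H.xy
      have hh := hch h H.wh H.hy
      have h2 : 988 / 1000 * (800 / (988 / 989) ^ T.D * (989 / 1000) ^ i * (988 / 989) ^ (j - 1)) ≤
          (800 / (988 / 989) ^ T.D * (989 / 1000) ^ (i + 1) * (988 / 989) ^ j : ℝ) := by
        have h3 : (988 / 989 : ℝ) ^ (j - 1 + 1) ≤ (988 / 989) ^ j :=
          pow_le_pow_of_le_one (by norm_num) (by norm_num) (by omega)
        have : (0 : ℝ) ≤ 800 / (988 / 989) ^ T.D * (989 / 1000) ^ i := by positivity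
        rw [pow_succ] at h3
        rw [pow_succ, ← mul_assoc (800 / _)]
        nlinarith
      have hg' : 2 * T.R + i + 3 < T.g := by omega
      rcases Nat.lt_or_gt_of_ne (T.tne w x H.wx) with cx | cx <;>
        rcases Nat.lt_or_gt_of_ne (T.tne w h H.wh) with ch | ch
      · refine ⟨fun c => (T.late1 H hg' hw c cx ch (hx.1 cx) (hh.1 ch)).mono T h2, fun c => ?_⟩
        obtain ⟨p1, p2⟩ := T.padj w hw
        rcases H.all _ p1 with e | e | e <;> rw [e] at p2 <;> omega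
      · exact ⟨fun c => (T.late2 H hg' hw c cx ch (hx.1 cx) (hh.2 ch)).mono T h2,
          fun c => (T.early1 H hg' hw c cx (hx.1 cx) (hh.2 ch)).mono T h2⟩
      · exact ⟨fun c => (T.late2 H.symm hg' hw c ch cx (hh.1 ch) (hx.2 cx)).mono T h2,
          fun c => (T.early1 H.symm hg' hw c ch (hh.1 ch) (hx.2 cx)).mono T h2⟩
      · refine ⟨fun c => ?_, fun _ => (T.early2 H hg' hw cx ch (hx.2 cx) (hh.2 ch)).mono T h2⟩
        obtain ⟨u, p1, p2⟩ := T.late w hw
        rcases H.all _ p1 with e | e | e <;> rw [e] at p2 <;> omega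

theorem two_sided (hG : G.IsRegularOfDegree 3) (hD : (988 / 989 : ℝ) ^ T.D ≤ 1 / 400000)
    (s : Bool) {a b n : ℕ} (hab : a + b = n) (hg : 2 * T.R + T.D + n + 2 < T.g) {x h : V}
    (ha : G.Adj x h) :
    ∑ ω, T.N (!s) a h x ω * (wt s (T.X ω x) (T.X ω h) * T.N s b x h ω) ≤
      2 * (800 / (988 / 989) ^ T.D) ^ 2 * (989 / 1000) ^ n * Fintype.card (V → St) := by
  have key : ∀ s a b x h, a + b = n → G.Adj x h → T.t x < T.t h →
      ∑ ω, T.N (!s) a h x ω * (wt s (T.X ω x) (T.X ω h) * T.N s b x h ω) ≤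
      2 * (800 / (988 / 989) ^ T.D) ^ 2 * (989 / 1000) ^ n * Fintype.card (V → St) := by
    intro s a b x h hab ha ht
    obtain ⟨a0, a1, ⟨h1, h2, h3, h4⟩, h5⟩ := (T.claims hG hD s b x h 0 (by omega) ha (by omega)
      (fun k v hk => by omega)).1 ht
    obtain ⟨d0, d1, ⟨g1, g2, g3, g4⟩, g5⟩ := (T.claims hG hD (!s) a h x 0 (by omega) ha.symm
      (by omega) (fun k v hk => by omega)).2 ht
    simp only [pow_zero, mul_one] at h3 h4 g3 g4
    set K : ℝ := 800 / (988 / 989) ^ T.D with hK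
    have hK0 : 0 ≤ K := by positivity
    have e1 := h5 (T.N (!s) a h x) (T.N_nonneg _ _ _ _)
      ((T.N_dep _ a ht).ind fun v c1 c2 => T.tr.opp (by omega) ha.symm c1 c2)
    have hb : (0 : ℝ) ≤ K * (989 / 1000) ^ b := by positivity
    have e2 := g5 _ _ hb hb
    simp only [sel_self] at e2
    refine e1.trans (le_trans (sum_le_sum fun ω _ => ?_) (e2.trans ?_))
    · rw [mul_comm]
      exact mul_le_mul_of_nonneg_right (sel_le _ _ (by linarith) (by linarith)) (T.N_nonneg _ _ _ _ _)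
    · refine mul_le_mul_of_nonneg_right ?_ (by positivity)
      have : d0 + d1 ≤ 2 * (K * (989 / 1000) ^ a) := by linarith
      have := mul_le_mul_of_nonneg_left this hb
      rw [← hab, pow_add]
      linarith
  rcases Nat.lt_or_gt_of_ne (T.tne x h ha) with c | c
  · exact key s a b x h hab ha c
  · have := key (!s) b a h x (by omega) ha.symm c
    simp only [Bool.not_not, wt_swap] at this
    refine le_trans (le_of_eq (sum_congr rfl fun ω _ => by ring)) this

end Setup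
end MP93
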