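import Mathlib

/-! The local colouring rule and its finite tables. -/

namespace MP93
open Finset

abbrev St := ZMod 3 × Bool

def sgn (b : Bool) : ZMod 3 := if b then 1 else -1

def comb (x y : St) (b : Bool) : St :=
  if x.1 = y.1 then
    (x.1 + sgn (if x.2 = y.2 then x.2 else if b then x.2 else y.2),
      !(if x.2 = y.2 then x.2 else if b then x.2 else y.2))
  else if decide (-x.1 - y.1 = x.1 + sgn x.2) = decide (-x.1 - y.1 = y.1 + sgn y.2) then
    (-x.1 - y.1, if b then decide (x.1 = -x.1 - y.1 + 1) else !decide (x.1 = -x.1 - y.1 + 1))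
  else (-x.1 - y.1, if -x.1 - y.1 = x.1 + sgn x.2 then !decide (x.1 = -x.1 - y.1 + 1)
    else decide (x.1 = -x.1 - y.1 + 1))

def act (g x : St) : St := if g.2 then (g.1 - x.1, !x.2) else (g.1 + x.1, x.2)

def cm (o : Bool) (x y : St) (b : Bool) : St := if o then comb x y b else comb y x b

def wn (s : Bool) (x y : St) : ℕ :=
  if y.1 - x.1 = sgn s then 200 else if y.1 = x.1 then 40000 else 1

noncomputable def wt (s : Bool) (x y : St) : ℝ := (wn s x y : ℝ) / 200

noncomputable def sel (s c : Bool) (a0 a1 : ℝ) : ℝ := if c = s then a0 else a1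

lemma comb_act : ∀ g x y b, comb (act g x) (act g y) b = act g (comb x y b) := by decide +kernel

lemma act_zero : ∀ x, act (0, false) x = x := by decide

lemma act_inj : ∀ g x y, act g x = act g y → x = y := by decide +kernel

lemma wn_act : ∀ s a x y, wn s (act (a, false) x) (act (a, false) y) = wn s x y := by
  decide +kernel

lemma wn_swap : ∀ s x y, wn (!s) y x = wn s x y := by decide +kernel

lemma wn_le : ∀ s x y, wn s x y ≤ 40000 := by decide +kernel

lemma wn_one : ∀ s x b, wn s x (comb x x b) = if x.2 = s then 200 else 1 := by decide +kernel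

lemma wn_one' : ∀ s x b, wn s (comb x x b) x = if x.2 = s then 1 else 200 := by decide +kernel

lemma comb_snd : ∀ x b, (comb x x b).2 = !x.2 := by decide +kernel

lemma act_snd : ∀ x, (act (0, true) x).2 = !x.2 := by decide +kernel

lemma tU : ∀ o s x y b0, (∑ g : St, ∑ b : Bool, (if (cm o x (act g y) (xor b b0)).2 = s then
      wn s x (cm o x (act g y) (xor b b0)) else 0) = if x.2 = s then 604 else 204) ∧
    (∑ g : St, ∑ b : Bool, (if (cm o x (act g y) (xor b b0)).2 = s then 0 else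
      wn s x (cm o x (act g y) (xor b b0))) = if x.2 = s then 801 else 803) := by decide +kernel

lemma tW : ∀ o s x y b0, (∑ g : St, ∑ b : Bool, (if (cm o x (act g y) (xor b b0)).2 = s then
      wn s (cm o x (act g y) (xor b b0)) x else 0) = if x.2 = s then 803 else 801) ∧
    (∑ g : St, ∑ b : Bool, (if (cm o x (act g y) (xor b b0)).2 = s then 0 else
      wn s (cm o x (act g y) (xor b b0)) x) = if x.2 = s then 204 else 604) := by decide +kernel

lemma tP : ∀ o s x y b0, ∑ a : ZMod 3, ∑ b : Bool,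
    wn s x (cm o x (act (a, false) y) (xor b b0)) *
      wn s (cm o x (act (a, false) y) (xor b b0)) (act (a, false) y) = 80402 := by decide +kernel

lemma wt_nonneg (s x y) : 0 ≤ wt s x y := by unfold wt; positivity

lemma wt_le (s x y) : wt s x y ≤ 200 := by
  have : (wn s x y : ℝ) ≤ 40000 := by exact_mod_cast wn_le s x y
  unfold wt; linarith

lemma wt_act (s a x y) : wt s (act (a, false) x) (act (a, false) y) = wt s x y := by
  simp only [wt, wn_act]

lemma wt_swap (s x y) : wt (!s) y x = wt s x y := by simp only [wt, wn_swap]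

lemma sel_nonneg (s c) {a b : ℝ} (ha : 0 ≤ a) (hb : 0 ≤ b) : 0 ≤ sel s c a b := by
  unfold sel; split_ifs <;> assumption

lemma sel_le (s c) {a b m : ℝ} (ha : a ≤ m) (hb : b ≤ m) : sel s c a b ≤ m := by
  unfold sel; split_ifs <;> assumption

lemma sel_self (s c) (a : ℝ) : sel s c a a = a := by simp [sel]

lemma one_late (s x b) (a0 a1 c0 c1 : ℝ) :
    wt s x (comb x x b) * sel s (comb x x b).2 a0 a1 + wt s x (comb x x b) * sel s (comb x x b).2 c0 c1
      = sel s x.2 (a1 + c1) ((a0 + c0) / 200) := by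
  rw [wt, wn_one, comb_snd]
  cases s <;> cases x.2 <;> simp [sel] <;> ring

lemma one_early (s x b) (a0 a1 : ℝ) :
    sel s (comb x x b).2 a0 a1 * wt s (comb x x b) x = sel s x.2 (a1 / 200) a0 := by
  rw [wt, wn_one', comb_snd]
  cases s <;> cases x.2 <;> simp [sel] <;> ring

lemma split_sel (s c : Bool) (n : ℕ) (a0 a1 : ℝ) : (n : ℝ) / 200 * sel s c a0 a1 =
    a0 / 200 * ((if c = s then n else 0 : ℕ) : ℝ) + a1 / 200 * ((if c = s then 0 else n : ℕ) : ℝ) := by
  unfold sel; split_ifs <;> simp <;> ring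

lemma tabU (o s x y b0) (a0 a1 : ℝ) : ∑ g : St, ∑ b : Bool,
    wt s x (cm o x (act g y) (xor b b0)) * sel s (cm o x (act g y) (xor b b0)).2 a0 a1 =
      12 * sel s x.2 (151 / 600 * a0 + 267 / 800 * a1) (17 / 200 * a0 + 803 / 2400 * a1) := by
  simp only [wt, split_sel, sum_add_distrib, ← mul_sum, ← Nat.cast_sum, (tU o s x y b0).1,
    (tU o s x y b0).2]
  unfold sel; split_ifs <;> push_cast <;> ring

lemma tabW (o s x y b0) (a0 a1 : ℝ) : ∑ g : St, ∑ b : Bool,
    wt s (cm o x (act g y) (xor b b0)) x * sel s (cm o x (act g y) (xor b b0)).2 a0 a1 =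
      12 * sel s x.2 (803 / 2400 * a0 + 17 / 200 * a1) (267 / 800 * a0 + 151 / 600 * a1) := by
  simp only [wt, split_sel, sum_add_distrib, ← mul_sum, ← Nat.cast_sum, (tW o s x y b0).1,
    (tW o s x y b0).2]
  unfold sel; split_ifs <;> push_cast <;> ring

lemma tabP (o s x y b0) : ∑ a : ZMod 3, ∑ b : Bool,
    wt s x (cm o x (act (a, false) y) (xor b b0)) *
      wt s (cm o x (act (a, false) y) (xor b b0)) (act (a, false) y) = 6 * (40201 / 120000) := by
  simp only [wt, div_mul_div_comm, ← sum_div, ← Nat.cast_mul, ← Nat.cast_sum, tP o s x y b0]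
  norm_num

def InA (κ a0 a1 : ℝ) : Prop :=
  0 ≤ a0 ∧ 0 ≤ a1 ∧ a1 ≤ 487 / 1000 * κ ∧ a0 + 849 / 1000 * a1 ≤ κ

def InD (κ d0 d1 : ℝ) : Prop :=
  0 ≤ d0 ∧ 0 ≤ d1 ∧ d1 ≤ 251 / 1000 * κ ∧ d0 + 865 / 1000 * d1 ≤ 767 / 1000 * κ

lemma inv1 {κ x0 x1 y0 y1 : ℝ} (hx : InA κ x0 x1) (hy : InA κ y0 y1) :
    InA (988 / 1000 * κ) (x1 + y1) ((x0 + y0) / 200) := by
  obtain ⟨a, b, c, d⟩ := hx; obtain ⟨e, f, g, h⟩ := hy
  refine ⟨?_, ?_, ?_, ?_⟩ <;> linarith

lemma inv2 {κ x0 x1 y0 y1 : ℝ} (hx : InA κ x0 x1) (hy : InD κ y0 y1) :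
    InA (988 / 1000 * κ) (151 / 600 * x0 + 267 / 800 * x1 + 40201 / 120000 * (y0 + y1))
      (17 / 200 * x0 + 803 / 2400 * x1 + 40201 / 120000 * (y0 + y1)) := by
  obtain ⟨a, b, c, d⟩ := hx; obtain ⟨e, f, g, h⟩ := hy
  refine ⟨?_, ?_, ?_, ?_⟩ <;> linarith

lemma inv3 {κ x0 x1 y0 y1 : ℝ} (hx : InA κ x0 x1) (hy : InD κ y0 y1) :
    InD (988 / 1000 * κ) (y1 + x0 / 2) (y0 / 200 + x1 / 2) := by
  obtain ⟨a, b, c, d⟩ := hx; obtain ⟨e, f, g, h⟩ := hy
  refine ⟨?_, ?_, ?_, ?_⟩ <;> linarith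

lemma inv4 {κ x0 x1 y0 y1 : ℝ} (hx : InD κ x0 x1) (hy : InD κ y0 y1) :
    InD (988 / 1000 * κ) (803 / 2400 * (x0 + y0) + 267 / 800 * (x1 + y1))
      (17 / 200 * (x0 + y0) + 151 / 600 * (x1 + y1)) := by
  obtain ⟨a, b, c, d⟩ := hx; obtain ⟨e, f, g, h⟩ := hy
  refine ⟨?_, ?_, ?_, ?_⟩ <;> linarith

end MP93
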