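import Mathlib

/-! An asymmetric local lemma for product spaces (variable version). -/

namespace MP93
open Finset

lemma indep_sum {ι Γ : Type} [Fintype ι] [DecidableEq ι] [Fintype Γ] (U : Finset ι)
    (f g : (ι → Γ) → ℝ) (hf : ∀ ω ω', (∀ i ∈ U, ω i = ω' i) → f ω = f ω')
    (hg : ∀ ω ω', (∀ i ∉ U, ω i = ω' i) → g ω = g ω') :
    (∑ ω, f ω * g ω) * Fintype.card (ι → Γ) = (∑ ω, f ω) * ∑ ω, g ω := by
  let e : (ι → Γ) × (ι → Γ) → (ι → Γ) × (ι → Γ) :=
    fun x => (U.piecewise x.1 x.2, U.piecewise x.2 x.1)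
  have he : Function.Involutive e := by
    rintro ⟨a, b⟩
    simp only [e, Prod.mk.injEq]
    constructor <;> funext i <;> by_cases hi : i ∈ U <;> simp [Finset.piecewise, hi]
  rw [Finset.sum_mul_sum, ← Finset.sum_product', univ_product_univ,
    ← Equiv.sum_comp (Function.Involutive.toPerm e he) (fun x => f x.1 * g x.2)]
  have : ∀ x : (ι → Γ) × (ι → Γ), f ((Function.Involutive.toPerm e he) x).1 * g ((Function.Involutive.toPerm e he) x).2 = f x.1 * g x.1 := by
    intro x
    congr 1
    · apply hf; intro i hi; simp [e, Finset.piecewise, hi]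
    · apply hg; intro i hi; simp [e, Finset.piecewise, hi]
  simp only [this]
  rw [← univ_product_univ, Finset.sum_product]
  simp only [sum_const, card_univ, nsmul_eq_mul, ← mul_sum]
  ring

open Classical in
theorem lll {ι Γ J : Type} [Fintype ι] [DecidableEq ι] [Fintype Γ] [Nonempty Γ] [DecidableEq J]
    (I : Finset J) (A : J → (ι → Γ) → Prop) (sup : J → Finset ι) (p : J → ℝ)
    (hdep : ∀ j ∈ I, ∀ ω ω', (∀ i ∈ sup j, ω i = ω' i) → (A j ω ↔ A j ω'))
    (hp0 : ∀ j ∈ I, 0 ≤ p j) (hp1 : ∀ j ∈ I, p j ≤ 1 / 4)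
    (hp : ∀ j ∈ I, (∑ ω, if A j ω then (1 : ℝ) else 0) ≤ p j * Fintype.card (ι → Γ))
    (hs : ∀ j ∈ I, ∑ k ∈ I.filter (fun k => ¬ Disjoint (sup j) (sup k)), p k ≤ 1 / 4) :
    ∃ ω, ∀ j ∈ I, ¬ A j ω := by
  let av : Finset J → (ι → Γ) → ℝ := fun T ω => if ∀ k ∈ T, ¬ A k ω then 1 else 0
  let ind : J → (ι → Γ) → ℝ := fun j ω => if A j ω then 1 else 0
  have hN : (0 : ℝ) < Fintype.card (ι → Γ) := by exact_mod_cast Fintype.card_pos
  have av0 : ∀ T ω, 0 ≤ av T ω := fun T ω => by simp only [av]; split_ifs <;> norm_num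
  have ind0 : ∀ j ω, 0 ≤ ind j ω := fun j ω => by simp only [ind]; split_ifs <;> norm_num
  have key : ∀ n, ∀ T ⊆ I, T.card = n → ∀ j ∈ I,
      ∑ ω, ind j ω * av T ω ≤ 2 * p j * ∑ ω, av T ω := by
    intro n
    induction n using Nat.strong_induction_on with
    | _ n ih =>
    intro T hT hn j hj
    set T₁ := T.filter (fun k => ¬ Disjoint (sup j) (sup k)) with hT₁
    set T₂ := T.filter (fun k => Disjoint (sup j) (sup k)) with hT₂
    have h1 : ∑ ω, ind j ω * av T ω ≤ ∑ ω, ind j ω * av T₂ ω := by
      refine sum_le_sum fun ω _ => mul_le_mul_of_nonneg_left ?_ (ind0 j ω)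
      simp only [av]
      split_ifs with h h'
      · exact le_rfl
      · exact absurd (fun k hk => h k (mem_filter.1 hk).1) h'
      · norm_num
      · exact le_rfl
    have hZ : 0 ≤ ∑ ω, av T₂ ω := sum_nonneg fun ω _ => av0 _ _
    have h2 : ∑ ω, ind j ω * av T₂ ω ≤ p j * ∑ ω, av T₂ ω := by
      have e := indep_sum (sup j) (ind j) (av T₂)
        (fun ω ω' h => by simp only [ind, hdep j hj ω ω' h])
        (fun ω ω' h => by
          simp only [av]
          congr 1
          apply propext
          refine forall₂_congr fun k hk => not_congr (hdep k (hT (mem_filter.1 hk).1) ω ω' ?_)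
          intro i hi
          exact h i (fun hi' => Finset.disjoint_left.1 (mem_filter.1 hk).2 hi' hi))
      refine le_of_mul_le_mul_right ?_ hN
      rw [e]
      have := mul_le_mul_of_nonneg_right (hp j hj) hZ
      linarith
    have h3 : ∑ ω, av T₂ ω ≤ 2 * ∑ ω, av T ω := by
      by_cases h0 : T₁ = ∅
      · have : T₂ = T := by
          rw [hT₂, Finset.filter_eq_self]
          intro k hk
          by_contra hc
          have : k ∈ T₁ := mem_filter.2 ⟨hk, hc⟩
          rw [h0] at this
          simp at this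
        rw [this] at hZ ⊢
        linarith
      · have hlt : T₂.card < n := by
          rw [← hn]
          obtain ⟨k, hk⟩ := Finset.nonempty_iff_ne_empty.2 h0
          refine card_lt_card ⟨filter_subset _ _, fun hsub => ?_⟩
          exact (mem_filter.1 hk).2 (mem_filter.1 (hsub (mem_filter.1 hk).1)).2
        have h4 : ∑ ω, av T₂ ω ≤ ∑ ω, av T ω + ∑ k ∈ T₁, ∑ ω, ind k ω * av T₂ ω := by
          rw [Finset.sum_comm, ← sum_add_distrib]
          refine sum_le_sum fun ω _ => ?_
          have hs0 : 0 ≤ ∑ k ∈ T₁, ind k ω * av T₂ ω :=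
            sum_nonneg fun k _ => mul_nonneg (ind0 _ _) (av0 _ _)
          by_cases h : ∀ k ∈ T, ¬ A k ω
          · have : av T ω = 1 := if_pos h
            have : av T₂ ω ≤ 1 := by simp only [av]; split_ifs <;> norm_num
            linarith
          · by_cases h' : ∀ k ∈ T₂, ¬ A k ω
            · push Not at h
              obtain ⟨k, hk, hA⟩ := h
              have hk1 : k ∈ T₁ := mem_filter.2 ⟨hk, fun hd => h' k (mem_filter.2 ⟨hk, hd⟩) hA⟩
              have := single_le_sum (f := fun k => ind k ω * av T₂ ω)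
                (fun k _ => mul_nonneg (ind0 _ _) (av0 _ _)) hk1
              have e : ind k ω = 1 := if_pos hA
              simp only [e, one_mul] at this
              linarith [av0 T ω]
            · have : av T₂ ω = 0 := if_neg h'
              linarith [av0 T ω]
        have h5 : ∑ k ∈ T₁, ∑ ω, ind k ω * av T₂ ω ≤ ∑ k ∈ T₁, 2 * p k * ∑ ω, av T₂ ω :=
          sum_le_sum fun k hk => ih _ hlt T₂ ((filter_subset _ _).trans hT) rfl k
            (hT (mem_filter.1 hk).1)
        have h6 : ∑ k ∈ T₁, p k ≤ 1 / 4 :=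
          le_trans (sum_le_sum_of_subset_of_nonneg (filter_subset_filter _ hT)
            fun k hk _ => hp0 k (mem_filter.1 hk).1) (hs j hj)
        rw [← sum_mul, ← mul_sum] at h5
        nlinarith
    have := hp0 j hj
    nlinarith
  have pos : ∀ T, T ⊆ I → 0 < ∑ ω, av T ω := by
    intro T
    induction T using Finset.induction_on with
    | empty => intro _; simpa [av] using hN
    | insert j T hjT ih =>
      intro h
      have hT : T ⊆ I := (subset_insert j T).trans h
      have hj : j ∈ I := h (mem_insert_self j T)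
      have h1 := key _ T hT rfl j hj
      have h2 : ∑ ω, av (insert j T) ω = ∑ ω, av T ω - ∑ ω, ind j ω * av T ω := by
        rw [← sum_sub_distrib]
        refine sum_congr rfl fun ω _ => ?_
        simp only [av, ind, forall_mem_insert]
        by_cases ha : A j ω <;> simp [ha]
      have := ih hT
      have := hp1 j hj
      nlinarith
  obtain ⟨ω, _, hω⟩ := exists_ne_zero_of_sum_ne_zero (pos I subset_rfl).ne'
  refine ⟨ω, ?_⟩
  by_contra hc
  exact hω (if_neg hc)

end MP93
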