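import Pool.Agent.Lib.MP_93a6aa_co.NB

/-! A sparse seed set and a bounded time function without other local extrema. -/

namespace MP93
open Finset SimpleGraph

variable {V : Type} {G : SimpleGraph V}

lemma exists_sep [Fintype V] (D : ℕ) : ∃ S : Finset V,
    (∀ u ∈ S, ∀ v ∈ S, Near G D u v → u = v) ∧ ∀ v, ∃ s ∈ S, Near G D v s := by
  classical
  obtain ⟨S, hS, hmax⟩ := exists_max_image
    ((univ : Finset (Finset V)).filter fun S => ∀ u ∈ S, ∀ v ∈ S, Near G D u v → u = v) card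
    ⟨∅, by simp⟩
  have hS' := (mem_filter.1 hS).2
  refine ⟨S, hS', fun v => ?_⟩
  by_contra hc
  push Not at hc
  have hv : v ∉ S := fun h => hc v h (Near.refl _ _)
  have := hmax (insert v S) (mem_filter.2 ⟨mem_univ _, ?_⟩)
  · rw [card_insert_of_notMem hv] at this; omega
  · intro a ha b hb hab
    rcases mem_insert.1 ha with ha' | ha' <;> rcases mem_insert.1 hb with hb' | hb'
    · rw [ha', hb']
    · exact absurd (ha' ▸ hab) (hc b hb')
    · exact absurd (hb' ▸ hab.symm) (hc a ha')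
    · exact hS' a ha' b hb' hab

lemma exists_col [Fintype V] [DecidableRel G.Adj] (hG : G.IsRegularOfDegree 3) (k : ℕ) :
    ∃ col : V → ℕ, (∀ v, col v < 4 ^ k + 1) ∧ ∀ u v, Near G k u v → col u = col v → u = v := by
  classical
  have key : ∀ T : Finset V, ∃ col : V → ℕ, (∀ v, col v < 4 ^ k + 1) ∧
      ∀ u ∈ T, ∀ v ∈ T, Near G k u v → col u = col v → u = v := by
    intro T
    induction T using Finset.induction_on with
    | empty => exact ⟨fun _ => 0, fun _ => by positivity, by simp⟩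
    | insert w T hw ih =>
      obtain ⟨col, h1, h2⟩ := ih
      obtain ⟨B, hB, hB'⟩ := card_near hG k w
      obtain ⟨c, hc, hc'⟩ := exists_mem_notMem_of_card_lt_card (s := B.image col)
        (t := range (4 ^ k + 1)) (by rw [card_range]; exact Nat.lt_succ_of_le (card_image_le.trans hB))
      refine ⟨Function.update col w c, fun v => ?_, ?_⟩
      · by_cases h : v = w
        · subst h; simpa using hc
        · simpa [h] using h1 v
      · intro a ha b hb hab hcol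
        by_cases e1 : a = w <;> by_cases e2 : b = w
        · rw [e1, e2]
        · subst e1
          simp only [Function.update_self, Function.update_of_ne e2] at hcol
          exact absurd (mem_image.2 ⟨b, hB' b hab, hcol.symm⟩) hc'
        · subst e2
          simp only [Function.update_self, Function.update_of_ne e1] at hcol
          exact absurd (mem_image.2 ⟨a, hB' a hab.symm, hcol⟩) hc'
        · simp only [Function.update_of_ne e1, Function.update_of_ne e2] at hcol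
          exact h2 a ((mem_insert.1 ha).resolve_left e1) b ((mem_insert.1 hb).resolve_left e2) hab hcol
  obtain ⟨col, h1, h2⟩ := key univ
  exact ⟨col, h1, fun u v => h2 u (mem_univ _) v (mem_univ _)⟩

lemma exists_other [Fintype V] [DecidableRel G.Adj] (hG : G.IsRegularOfDegree 3) (y w : V) :
    ∃ z, G.Adj w z ∧ z ≠ y := by
  classical
  obtain ⟨z, hz, hz'⟩ := exists_mem_notMem_of_card_lt_card (s := {y}) (t := G.neighborFinset w)
    (by rw [card_neighborFinset_eq_degree, hG w]; simp)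
  exact ⟨z, by simpa using hz, by simpa using hz'⟩

lemma exists_NB [Fintype V] [DecidableRel G.Adj] (hG : G.IsRegularOfDegree 3) (n : ℕ) :
    ∀ y w, G.Adj y w → ∃ f, NB G f (n + 1) ∧ f 0 = y ∧ f 1 = w := by
  induction n with
  | zero =>
    intro y w h
    exact ⟨pre y (fun _ => w),
      ⟨fun i hi => by obtain rfl : i = 0 := (by omega); exact h, fun i hi => by omega⟩, rfl, rfl⟩
  | succ n ih =>
    intro y w h
    obtain ⟨z, hz, hz'⟩ := exists_other hG y w
    obtain ⟨f, hf, e0, e1⟩ := ih w z hz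
    exact ⟨pre y f, hf.pre (e0 ▸ h) (fun _ => e1 ▸ hz'.symm), rfl, e0⟩

lemma reduce {u s : V} (p : G.Walk u s) : ∀ (f : ℕ → V) (a : ℕ), NB G f a → f a = u →
    p.length < a → ∃ f' n, 1 ≤ n ∧ n ≤ a + p.length ∧ NB G f' n ∧ f' 0 = f 0 ∧ f' 1 = f 1 ∧
      f' n = s := by
  classical
  induction p with
  | nil => intro f a hf e ha; exact ⟨f, a, ha, by simp, hf, rfl, rfl, e⟩
  | @cons u x s h p ih =>
    intro f a hf e ha
    simp only [Walk.length_cons] at ha ⊢
    by_cases c : f (a - 1) = x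
    · obtain ⟨f', n, h1, h2, h3⟩ := ih f (a - 1) (hf.mono (by omega)) c (by omega)
      exact ⟨f', n, h1, by omega, h3⟩
    · have hnb : NB G (Function.update f (a + 1) x) (a + 1) := by
        refine ⟨fun i hi => ?_, fun i hi => ?_⟩
        · rw [Function.update_of_ne (by omega)]
          by_cases ci : i = a
          · subst ci; simpa [e] using h
          · rw [Function.update_of_ne (by omega)]; exact hf.1 i (by omega)
        · rw [Function.update_of_ne (by omega)]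
          by_cases ci : i + 2 = a + 1
          · rw [ci, Function.update_self, show i = a - 1 by omega]; exact c
          · rw [Function.update_of_ne ci]; exact hf.2 i (by omega)
      obtain ⟨f', n, h1, h2, h3, h4, h5, h6⟩ := ih (Function.update f (a + 1) x) (a + 1) hnb
        (by simp) (by omega)
      refine ⟨f', n, h1, by omega, h3, ?_, ?_, h6⟩
      · rw [h4, Function.update_of_ne (by omega)]
      · rw [h5, Function.update_of_ne (by omega)]

lemma half_ear [Fintype V] [DecidableRel G.Adj] (hG : G.IsRegularOfDegree 3) {D : ℕ} {X : Set V}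
    (hX : ∀ v, ∃ s ∈ X, Near G D v s) {v z : V} (hz : G.Adj v z) :
    ∃ f n, 1 ≤ n ∧ n ≤ 2 * D + 1 ∧ NB G f n ∧ f 0 = v ∧ f 1 = z ∧ f n ∈ X ∧
      ∀ i, 1 ≤ i → i < n → f i ∉ X := by
  classical
  obtain ⟨f, hf, e0, e1⟩ := exists_NB hG D v z hz
  obtain ⟨s, hs, p, hp⟩ := hX (f (D + 1))
  obtain ⟨f', n, h1, h2, h3, h4, h5, h6⟩ := reduce p f (D + 1) hf rfl (by omega)
  have hex : ∃ m, 1 ≤ m ∧ f' m ∈ X := ⟨n, h1, h6 ▸ hs⟩
  have hle : Nat.find hex ≤ n := Nat.find_min' hex ⟨h1, h6 ▸ hs⟩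
  refine ⟨f', Nat.find hex, (Nat.find_spec hex).1, by omega, h3.mono hle, by rw [h4, e0],
    by rw [h5, e1], (Nat.find_spec hex).2, fun i hi hi' hx => Nat.find_min hex hi' ⟨hi, hx⟩⟩

lemma ear [Fintype V] [DecidableRel G.Adj] (hG : G.IsRegularOfDegree 3) {D : ℕ} {X : Set V}
    (hX : ∀ v, ∃ s ∈ X, Near G D v s) (hT : Tr G (4 * D + 3)) (t : V → ℕ)
    (ht : ∀ u v, Near G (4 * D + 2) u v → t u = t v → u = v) {v : V} (hv : v ∉ X) :
    ∃ f n, n ≤ 4 * D + 2 ∧ NB G f n ∧ f 0 ∈ X ∧ f n ∈ X ∧ (∀ i, 0 < i → i < n → f i ∉ X) ∧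
      (∃ a, 0 < a ∧ a < n ∧ f a = v) ∧ t (f 0) < t (f n) := by
  have key : ∃ f n, n ≤ 4 * D + 2 ∧ NB G f n ∧ f 0 ∈ X ∧ f n ∈ X ∧
      (∀ i, 0 < i → i < n → f i ∉ X) ∧ (∃ a, 0 < a ∧ a < n ∧ f a = v) := by
    obtain ⟨z1, hz1, -⟩ := exists_other hG v v
    obtain ⟨z2, hz2, hne⟩ := exists_other hG z1 v
    obtain ⟨f1, a, a1, a2, a3, a4, a5, a6, a7⟩ := half_ear hG hX hz1
    obtain ⟨f2, b, b1, b2, b3, b4, b5, b6, b7⟩ := half_ear hG hX hz2
    refine ⟨glue f1 a f2, a + b, by omega,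
      a3.glue b3 (by rw [a4, b4]) (fun _ _ => by rw [a5, b5]; exact hne.symm), by simpa [glue] using a6,
      ?_, ?_, a, by omega, by omega, by simp [glue, a4]⟩
    · simp only [glue]; rw [if_neg (by omega)]; simpa using b6
    · intro i h1 h2
      simp only [glue]
      split_ifs with c
      · by_cases e : i = a
        · rw [e, Nat.sub_self, a4]; exact hv
        · exact a7 _ (by omega) (by omega)
      · exact b7 _ (by omega) (by omega)
  obtain ⟨f, n, h1, h2, h3, h4, h5, a, a1, a2, a3⟩ := key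
  have hne : t (f 0) ≠ t (f n) := fun h => hT f n h2 (by omega) 0 n (by omega) le_rfl
    (ht _ _ ((h2.near (by omega) le_rfl).mono h1) h)
  rcases Nat.lt_or_gt_of_ne hne with c | c
  · exact ⟨f, n, h1, h2, h3, h4, h5, ⟨a, a1, a2, a3⟩, c⟩
  · refine ⟨fun i => f (n - i), n, h1, h2.rev n le_rfl, by simpa using h4, by simpa using h3,
      fun i hi hi' => h5 _ (by omega) (by omega), ⟨n - a, by omega, by omega, ?_⟩, by simpa using c⟩
    show f (n - (n - a)) = v
    rw [← a3]; congr 1; omega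

def TInv (G : SimpleGraph V) (S X : Set V) (t : V → ℕ) : Prop :=
  S ⊆ X ∧ ∀ v ∈ X, v ∉ S → (∃ u ∈ X, G.Adj v u ∧ t u < t v) ∧ ∃ u ∈ X, G.Adj v u ∧ t v < t u

lemma lex_lt {a b c d χ : ℕ} (h : a < b) (hc : c < χ) : a * χ + c < b * χ + d := by
  nlinarith

lemma lex_inj {a b c d χ : ℕ} (h : a * χ + c = b * χ + d) (hc : c < χ) (hd : d < χ) : c = d := by
  rcases lt_trichotomy a b with e | e | e
  · have := lex_lt (d := d) e hc; omega
  · subst e; omega
  · have := lex_lt (d := c) e hd; omega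

lemma round [Fintype V] [DecidableRel G.Adj] (hG : G.IsRegularOfDegree 3) {D : ℕ} {S X : Set V}
    (hS : ∀ v, ∃ s ∈ S, Near G D v s) (hT : Tr G (4 * D + 3)) {χ : ℕ} {col : V → ℕ}
    (hc : ∀ v, col v < χ) (hcol : ∀ u v, Near G (8 * D + 4) u v → col u = col v → u = v)
    {t : V → ℕ} {R : ℕ} (ht : ∀ v, t v ≤ R) (hI : TInv G S X t) (r : ℕ) :
    ∃ X' t', TInv G S X' t' ∧ X ⊆ X' ∧ (∀ v, col v = r → v ∈ X') ∧
      ∀ v, t' v ≤ (R * χ + χ + 1) * (4 * D + 3) := by
  classical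
  let t1 : V → ℕ := fun v => t v * χ + col v
  have ht1 : ∀ v, t1 v ≤ R * χ + χ := fun v => by
    have := Nat.mul_le_mul_right χ (ht v); have := hc v; simp only [t1]; omega
  have hE : ∀ v, ∃ f n, v ∉ X → n ≤ 4 * D + 2 ∧ NB G f n ∧ f 0 ∈ X ∧ f n ∈ X ∧
      (∀ i, 0 < i → i < n → f i ∉ X) ∧ (∃ a, 0 < a ∧ a < n ∧ f a = v) ∧ t1 (f 0) < t1 (f n) := by
    intro v
    by_cases hv : v ∈ X
    · exact ⟨fun _ => v, 0, fun h => absurd hv h⟩
    · obtain ⟨f, n, h⟩ := ear hG (X := X) (fun v => (hS v).imp fun s hs => ⟨hI.1 hs.1, hs.2⟩) hT t1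
        (fun u v h e => hcol u v (h.mono (by omega)) (lex_inj e (hc u) (hc v))) hv
      exact ⟨f, n, fun _ => h⟩
  choose f n hf using hE
  have uniq : ∀ v v' i i', v ∉ X → v' ∉ X → col v = r → col v' = r → i ≤ n v → i' ≤ n v' →
      f v i = f v' i' → v = v' ∧ i = i' := by
    intro v v' i i' hv hv' c c' hi hi' e
    obtain ⟨a1, a2, -, -, -, ⟨a, -, a3, a4⟩, -⟩ := hf v hv
    obtain ⟨b1, b2, -, -, -, ⟨b, -, b3, b4⟩, -⟩ := hf v' hv'
    have n1 := a2.near a3.le hi
    have n2 := b2.near hi' b3.le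
    rw [a4, e] at n1
    rw [b4] at n2
    obtain rfl : v = v' := hcol v v' ((n1.trans n2).mono (by omega)) (by rw [c, c'])
    refine ⟨rfl, ?_⟩
    by_contra hne
    rcases Nat.lt_or_gt_of_ne hne with h | h
    · exact hT _ _ a2 (by omega) i i' h hi' e
    · exact hT _ _ a2 (by omega) i' i h hi e.symm
  have hτ : ∀ z, ∃ τ, τ ≤ (R * χ + χ + 1) * (4 * D + 3) ∧ (z ∈ X → τ = t1 z * (4 * D + 3)) ∧
      ∀ v i, v ∉ X → col v = r → 0 < i → i < n v → f v i = z → τ = t1 (f v 0) * (4 * D + 3) + i := by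
    intro z
    by_cases h : ∃ v i, v ∉ X ∧ col v = r ∧ 0 < i ∧ i < n v ∧ f v i = z
    · obtain ⟨v, i, h1, h2, h3, h4, h5⟩ := h
      refine ⟨t1 (f v 0) * (4 * D + 3) + i, ?_, fun hz => ?_, ?_⟩
      · have := Nat.mul_le_mul_right (4 * D + 3) (ht1 (f v 0))
        have := (hf v h1).1
        rw [add_mul _ 1]; omega
      · exact absurd (h5 ▸ hz) ((hf v h1).2.2.2.2.1 i h3 h4)
      · intro v' i' c1 c2 c3 c4 c5
        obtain ⟨rfl, rfl⟩ := uniq v v' i i' h1 c1 h2 c2 h4.le c4.le (by rw [h5, c5])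
        rfl
    · refine ⟨t1 z * (4 * D + 3), Nat.mul_le_mul_right _ ((ht1 z).trans (by omega)), fun _ => rfl, ?_⟩
      intro v i c1 c2 c3 c4 c5
      exact absurd ⟨v, i, c1, c2, c3, c4, c5⟩ h
  choose t' h1 h2 h3 using hτ
  refine ⟨X ∪ {z | ∃ v i, v ∉ X ∧ col v = r ∧ 0 < i ∧ i < n v ∧ f v i = z}, t',
    ⟨hI.1.trans Set.subset_union_left, ?_⟩, Set.subset_union_left, ?_, h1⟩
  · intro z hz hzS
    by_cases hzX : z ∈ X
    · obtain ⟨⟨u, u1, u2, u3⟩, ⟨w, w1, w2, w3⟩⟩ := hI.2 z hzX hzS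
      refine ⟨⟨u, Or.inl u1, u2, ?_⟩, ⟨w, Or.inl w1, w2, ?_⟩⟩
      · rw [h2 u u1, h2 z hzX]
        exact Nat.mul_lt_mul_of_pos_right (lex_lt u3 (hc u)) (by omega)
      · rw [h2 w w1, h2 z hzX]
        exact Nat.mul_lt_mul_of_pos_right (lex_lt w3 (hc z)) (by omega)
    · obtain ⟨v, i, c1, c2, c3, c4, rfl⟩ := hz.resolve_left hzX
      obtain ⟨a1, a2, a3, a4, -, -, a5⟩ := hf v c1
      have e := h3 _ v i c1 c2 c3 c4 rfl
      constructor
      · have hadj : G.Adj (f v i) (f v (i - 1)) := by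
          have := (a2.1 (i - 1) (by omega)).symm
          rwa [show i - 1 + 1 = i by omega] at this
        by_cases c : i = 1
        · subst c
          exact ⟨f v 0, Or.inl a3, hadj, by rw [e, h2 _ a3]; omega⟩
        · refine ⟨f v (i - 1), Or.inr ⟨v, i - 1, c1, c2, by omega, by omega, rfl⟩, hadj, ?_⟩
          rw [e, h3 _ v (i - 1) c1 c2 (by omega) (by omega) rfl]; omega
      · by_cases c : i + 1 = n v
        · refine ⟨f v (i + 1), Or.inl (c ▸ a4), a2.1 i c4, ?_⟩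
          rw [e, c, h2 _ a4]
          have := lex_lt (d := 0) (c := i) (χ := 4 * D + 3) a5 (by omega)
          omega
        · refine ⟨f v (i + 1), Or.inr ⟨v, i + 1, c1, c2, by omega, by omega, rfl⟩, a2.1 i c4, ?_⟩
          rw [e, h3 _ v (i + 1) c1 c2 (by omega) (by omega) rfl]; omega
  · intro v hv
    by_cases hX : v ∈ X
    · exact Or.inl hX
    · obtain ⟨-, -, -, -, -, ⟨a, a1, a2, a3⟩, -⟩ := hf v hX
      exact Or.inr ⟨v, a, hX, hv, a1, a2, a3⟩

theorem exists_times (D : ℕ) : ∃ R : ℕ, ∀ (V : Type) [Fintype V] (G : SimpleGraph V)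
    [DecidableRel G.Adj], G.IsRegularOfDegree 3 → Tr G (4 * D + 3) →
    ∃ (S : Set V) (t : V → ℕ), (∀ u ∈ S, ∀ v ∈ S, Near G D u v → u = v) ∧ (∀ v, t v ≤ R) ∧
      (∀ u v, G.Adj u v → t u ≠ t v) ∧
      ∀ v ∉ S, (∃ u, G.Adj v u ∧ t u < t v) ∧ ∃ u, G.Adj v u ∧ t v < t u := by
  set χ := 4 ^ (8 * D + 4) + 1 with hχ
  let ρ : ℕ → ℕ := fun r => (fun R => (R * χ + χ + 1) * (4 * D + 3))^[r] 0
  refine ⟨ρ χ * χ + χ, fun V _ G _ hG hT => ?_⟩
  obtain ⟨S, hS1, hS2⟩ := exists_sep (G := G) D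
  obtain ⟨col, hc, hcol⟩ := exists_col hG (8 * D + 4)
  have key : ∀ r, ∃ X t, TInv G (S : Set V) X t ∧ (∀ v, col v < r → v ∈ X) ∧ ∀ v, t v ≤ ρ r := by
    intro r
    induction r with
    | zero => exact ⟨S, fun _ => 0, ⟨subset_rfl, fun v h h' => absurd h h'⟩, by simp, by simp⟩
    | succ r ih =>
      obtain ⟨X, t, h1, h2, h3⟩ := ih
      obtain ⟨X', t', a1, a2, a3, a4⟩ := round hG (S := (S : Set V)) hS2 hT hc hcol h3 h1 r
      refine ⟨X', t', a1, fun v hv => ?_, fun v => ?_⟩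
      · by_cases c : col v = r
        · exact a3 v c
        · exact a2 (h2 v (by omega))
      · simp only [ρ, Function.iterate_succ_apply']
        exact a4 v
  obtain ⟨X, t, h1, h2, h3⟩ := key χ
  refine ⟨S, fun v => t v * χ + col v, hS1, fun v => ?_, fun u v h e => ?_, fun v hv => ?_⟩
  · have := Nat.mul_le_mul_right χ (h3 v); have := hc v; show t v * χ + col v ≤ _; omega
  · exact h.ne (hcol u v ((Near.adj h).mono (by omega)) (lex_inj e (hc u) (hc v)))
  · obtain ⟨⟨u, -, u2, u3⟩, ⟨w, -, w2, w3⟩⟩ := h1.2 v (h2 v (hc v)) hv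
    exact ⟨⟨u, u2, lex_lt u3 (hc u)⟩, ⟨w, w2, lex_lt w3 (hc v)⟩⟩

end MP93
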