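import Pool.Agent.Lib.MP_93a6aa_co.Walks
import Pool.Agent.Lib.MP_93a6aa_co.Time

/-! From a colouring without long nearly tight walks to a circular colouring. -/

namespace MP93
open Finset SimpleGraph Filter

def we (x y : St) : ℤ := if y.1 - x.1 = 1 then 0 else if y.1 = x.1 then 1 else -1

def ew (x y : St) (b : Prop) [Decidable b] : ℤ :=
  if y.1 - x.1 = 1 then 1 else if y.1 = x.1 then (if b then 501 else -999) else -499

lemma wt_eq (x y : St) : wt true x y = (200 : ℝ) ^ we x y := by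
  simp only [wt, wn, we, sgn, if_true]
  split_ifs <;> norm_num

lemma ew_le (x y : St) (b : Prop) [Decidable b] : ew x y b ≤ 1 + 500 * we x y := by
  simp only [ew, we]; split_ifs <;> omega

lemma ew_le' (x y : St) (b : Prop) [Decidable b] : ew x y b ≤ 501 := by
  simp only [ew]; split_ifs <;> omega

lemma zm (a b : ZMod 3) : (b - a = 1 ∧ b ≠ a ∧ a - b ≠ 1 ∧ a ≠ b ∧ (b.val = a.val + 1 ∨ a.val = b.val + 2)) ∨
    (b - a ≠ 1 ∧ b = a ∧ a - b ≠ 1 ∧ a = b ∧ b.val = a.val) ∨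
    (b - a ≠ 1 ∧ b ≠ a ∧ a - b = 1 ∧ a ≠ b ∧ (a.val = b.val + 1 ∨ b.val = a.val + 2)) := by
  revert a b; decide

lemma ew_back (x y : St) (a b : ℕ) : ew x y (a < b) + ew y x (b < a) ≤ 0 := by
  rcases zm x.1 y.1 with h | h | h
  · simp only [ew, if_pos h.1, if_neg h.2.2.1, if_neg h.2.2.2.1]; omega
  · simp only [ew, if_neg h.1, if_neg h.2.2.1, if_pos h.2.1, if_pos h.2.2.2.1]
    split_ifs <;> omega
  · simp only [ew, if_neg h.1, if_neg h.2.1, if_pos h.2.2.1]; omega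

lemma final (x y : St) (a b : ℕ) (hab : a ≠ b) (p q : ℤ) (h1 : ew x y (a < b) + q ≤ p)
    (h2 : ew y x (b < a) + p ≤ q) :
    167 ≤ |(500 * (x.1.val : ℤ) - p) % 1500 / 3 - (500 * (y.1.val : ℤ) - q) % 1500 / 3| ∧
      |(500 * (x.1.val : ℤ) - p) % 1500 / 3 - (500 * (y.1.val : ℤ) - q) % 1500 / 3| ≤ 333 := by
  rw [le_abs, abs_le]
  rcases zm x.1 y.1 with h | h | h
  · simp only [ew, h.1, h.2.2.1, h.2.2.2.1, if_true, if_false] at h1 h2
    have := h.2.2.2.2; omega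
  · simp only [ew, if_neg h.1, if_neg h.2.2.1, if_pos h.2.1, if_pos h.2.2.2.1] at h1 h2
    have := h.2.2.2.2
    split_ifs at h1 h2 <;> omega
  · simp only [ew, h.1, h.2.1, h.2.2.1, if_true, if_false] at h1 h2
    have := h.2.2.2.2; omega

lemma potential {V : Type} {G : SimpleGraph V} (w : V → V → ℤ) (C : ℤ) (hC : 0 ≤ C) (L : ℕ)
    (hL : 0 < L) (h1 : ∀ u v, w u v ≤ C) (h2 : ∀ u v, w u v + w v u ≤ 0)
    (h3 : ∀ f, NB G f L → ∑ j ∈ range L, w (f j) (f (j + 1)) ≤ 0) :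
    ∃ ψ : V → ℤ, ∀ u v, G.Adj u v → w u v + ψ v ≤ ψ u := by
  have bd : ∀ n f, NB G f n → ∑ j ∈ range n, w (f j) (f (j + 1)) ≤ L * C := by
    intro n
    induction n using Nat.strong_induction_on with
    | _ n ih =>
    intro f hf
    by_cases c : n ≤ L
    · refine (sum_le_card_nsmul _ _ C fun j _ => h1 _ _).trans ?_
      rw [card_range, nsmul_eq_mul]
      exact mul_le_mul_of_nonneg_right (by exact_mod_cast c) hC
    · obtain ⟨m, rfl⟩ : ∃ m, n = L + m := ⟨n - L, by omega⟩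
      rw [sum_range_add]
      have e1 := h3 f (hf.mono (by omega))
      have e2 := ih m (by omega) _ (hf.shift L m le_rfl)
      exact (add_le_add e1 e2).trans (by simp)
  have ex : ∀ u, ∃ z, (∃ f n, NB G f n ∧ f 0 = u ∧ z = ∑ j ∈ range n, w (f j) (f (j + 1))) ∧
      ∀ z', (∃ f n, NB G f n ∧ f 0 = u ∧ z' = ∑ j ∈ range n, w (f j) (f (j + 1))) → z' ≤ z := by
    intro u
    refine Int.exists_greatest_of_bdd ⟨L * C, ?_⟩
      ⟨0, fun _ => u, 0, ⟨fun i hi => by omega, fun i hi => by omega⟩, rfl, by simp⟩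
    rintro z ⟨f, n, hf, -, rfl⟩
    exact bd n f hf
  choose ψ h4 h5 using ex
  refine ⟨ψ, fun u v huv => ?_⟩
  obtain ⟨f, n, hf, e0, e1⟩ := h4 v
  by_cases c : 1 ≤ n → u ≠ f 1
  · refine h5 u _ ⟨pre u f, n + 1, hf.pre (e0 ▸ huv) c, rfl, ?_⟩
    rw [sum_range_succ', e1, add_comm, ← e0]
    rfl
  · push Not at c
    obtain ⟨m, rfl⟩ : ∃ m, n = m + 1 := ⟨n - 1, by omega⟩
    have := h5 u _ ⟨fun j => f (j + 1), m, ⟨fun i hi => hf.1 (i + 1) (by omega),
      fun i hi => hf.2 (i + 1) (by omega)⟩, c.2.symm, rfl⟩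
    rw [sum_range_succ', e0, zero_add, ← c.2] at e1
    have := h2 u v
    linarith

lemma exists_X {V : Type} (S : Set V) (t : V → ℕ) (p q : V → V) (R : ℕ) (hR : ∀ v, t v ≤ R)
    (hp : ∀ v ∉ S, t (p v) < t v) (hq : ∀ v ∉ S, t (q v) < t v) (ω : V → St) :
    ∃ X : V → St, (∀ v ∈ S, X v = ω v) ∧ ∀ v ∉ S, X v = comb (X (p v)) (X (q v)) (ω v).2 := by
  classical
  have key : ∀ n, ∃ X : V → St, (∀ v ∈ S, X v = ω v) ∧
      ∀ v ∉ S, t v < n → X v = comb (X (p v)) (X (q v)) (ω v).2 := by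
    intro n
    induction n with
    | zero => exact ⟨ω, fun _ _ => rfl, fun _ _ h => by omega⟩
    | succ n ih =>
      obtain ⟨X, h1, h2⟩ := ih
      refine ⟨fun v => if v ∉ S ∧ t v = n then comb (X (p v)) (X (q v)) (ω v).2 else X v,
        fun v hv => by simp [hv, h1 v hv], fun v hv ht => ?_⟩
      have e1 := hp v hv
      have e2 := hq v hv
      have a1 : ¬ (p v ∉ S ∧ t (p v) = n) := fun h => by omega
      have a2 : ¬ (q v ∉ S ∧ t (q v) = n) := fun h => by omega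
      simp only [if_neg a1, if_neg a2]
      split_ifs with c
      · rfl
      · exact h2 v hv (by by_contra h; exact c ⟨hv, by omega⟩)
  obtain ⟨X, h1, h2⟩ := key (R + 1)
  exact ⟨X, h1, fun v hv => h2 v hv (Nat.lt_succ_of_le (hR v))⟩

lemma exists_m (C : ℝ) : ∃ m : ℕ, 1 ≤ m ∧
    C * ((m : ℝ) ^ 2 * (200 * (989 / 1000) ^ 500) ^ m) ≤ 1 / 4 := by
  have h : |(200 * (989 / 1000) ^ 500 : ℝ)| < 1 := by
    rw [abs_of_pos (by positivity), show 500 = 100 * 5 by norm_num, pow_mul]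
    have h1 : (989 / 1000 : ℝ) ^ 100 ≤ 1 / 3 := by norm_num
    have h2 := pow_le_pow_left₀ (by positivity) h1 5
    linarith [show (200 : ℝ) * (1 / 3) ^ 5 < 1 by norm_num]
  have := (tendsto_pow_const_mul_const_pow_of_abs_lt_one 2 h).const_mul C
  rw [mul_zero] at this
  obtain ⟨m, hm⟩ := ((this.eventually (eventually_le_nhds (show (0 : ℝ) < 1 / 4 by norm_num))).and
    (eventually_ge_atTop 1)).exists
  exact ⟨m, hm.2, hm.1⟩

theorem main : ∃ g : ℕ, ∀ (V : Type) [Fintype V] (G : SimpleGraph V) [DecidableRel G.Adj],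
    G.IsRegularOfDegree 3 → (g : ℕ∞) ≤ G.egirth →
      ∃ f : V → ℤ, (∀ v, 0 ≤ f v ∧ f v < 500) ∧
        ∀ u v, G.Adj u v → 167 ≤ |f u - f v| ∧ |f u - f v| ≤ 333 := by
  obtain ⟨D, hD⟩ := exists_pow_lt_of_lt_one (show (0 : ℝ) < 1 / 400000 by norm_num)
    (show (988 / 989 : ℝ) < 1 by norm_num)
  obtain ⟨R, hR⟩ := exists_times D
  set K : ℝ := 800 / (988 / 989) ^ D with hK
  obtain ⟨m, hm1, hm⟩ := exists_m (501 * 500 * 4 ^ (2 * R + 1) * (3 * (2 * K ^ 2 * (1000 / 989))))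
  obtain ⟨L, hL⟩ : ∃ L, L + 1 = 500 * m := ⟨500 * m - 1, by omega⟩
  refine ⟨2 * R + 4 * D + L + 3, fun V _ G _ hG hg => ?_⟩
  classical
  have hT := tr_of_girth hg
  obtain ⟨S, t, h1, h2, h3, h4⟩ := hR V G hG (fun f n hf hn => hT f n hf (by omega))
  have hpq : ∀ v, ∃ p q, v ∉ S → (G.Adj v p ∧ t p < t v) ∧ (G.Adj v q ∧ t q < t v) ∧
      ∀ u, G.Adj v u → t u < t v → u = p ∨ u = q := by
    intro v
    by_cases hv : v ∈ S
    · exact ⟨v, v, fun h => absurd hv h⟩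
    obtain ⟨⟨e, e1, e2⟩, ⟨l, l1, l2⟩⟩ := h4 v hv
    obtain ⟨x, h, H⟩ := Setup.exists_tri hG l1.symm
    refine ⟨if t x < t v then x else e, if t h < t v then h else e, fun _ => ⟨?_, ?_, ?_⟩⟩
    · split_ifs with c
      exacts [⟨H.wx, c⟩, ⟨e1, e2⟩]
    · split_ifs with c
      exacts [⟨H.wh, c⟩, ⟨e1, e2⟩]
    · intro u u1 u2
      rcases H.all u u1 with rfl | rfl | rfl
      · omega
      · simp [u2]
      · simp [u2]
  choose p q hpq using hpq
  choose X hX1 hX2 using exists_X S t p q R h2 (fun v hv => (hpq v hv).1.2)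
    (fun v hv => (hpq v hv).2.1.2)
  let T : Setup G := ⟨S, t, p, q, R, D, _, X, hT, h2, h3, fun v hv => (hpq v hv).1,
    fun v hv => (hpq v hv).2.1, fun v hv => (hpq v hv).2.2, fun v hv => (h4 v hv).2, h1, hX1, hX2⟩
  obtain ⟨ω, hω⟩ := T.good hG hD.le true (L := L) (by simp only [T]; omega) (M := 200 ^ m)
    (by positivity) (by
      refine le_trans ?_ hm
      have e1 : ((L : ℝ) + 1) = 500 * m := by exact_mod_cast hL
      have e2 : ((L : ℝ) + 2) ≤ 501 * m := by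
        have : (1 : ℝ) ≤ m := by exact_mod_cast hm1
        linarith
      have e3 : (989 / 1000 : ℝ) ^ L = 1000 / 989 * ((989 / 1000) ^ 500) ^ m := by
        rw [← pow_mul, ← hL, pow_succ]; ring
      show ((L : ℝ) + 2) * 4 ^ (2 * R + 1) * ((L + 1) * (3 *
        (200 ^ m * (2 * K ^ 2 * (989 / 1000) ^ L)))) ≤ _
      rw [e1, e3, mul_pow]
      have e4 : (0 : ℝ) ≤ ((989 / 1000) ^ 500) ^ m := by positivity
      generalize ((989 / 1000 : ℝ) ^ 500) ^ m = r at e4 ⊢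
      have e5 : (0 : ℝ) ≤ 4 ^ (2 * R + 1) * (500 * m * (3 * (200 ^ m * (2 * K ^ 2 * (1000 / 989 * r))))) := by
        positivity
      have := mul_le_mul_of_nonneg_right e2 e5
      linarith)
  obtain ⟨ψ, hψ⟩ := potential (G := G) (fun u v => ew (X ω u) (X ω v) (t u < t v)) 501 (by norm_num)
    (L + 1) (by omega) (fun u v => ew_le' _ _ _) (fun u v => ew_back _ _ _ _) (fun f hf => by
      have e := hω f hf
      have e2 : ∀ n, T.PW true ω f n =
          (200 : ℝ) ^ (∑ j ∈ range n, we (X ω (f j)) (X ω (f (j + 1)))) := by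
        intro n
        induction n with
        | zero => simp [Setup.PW]
        | succ n ih =>
          rw [sum_range_succ, zpow_add₀ (by norm_num), ← ih, ← wt_eq]
          exact prod_range_succ _ _
      rw [e2, ← zpow_natCast, ← zpow_add₀ (by norm_num), zpow_lt_one_iff_right₀ (by norm_num)] at e
      refine (sum_le_sum fun j _ => ew_le _ _ _).trans ?_
      rw [sum_add_distrib, ← mul_sum]
      simp only [sum_const, card_range, nsmul_eq_mul, mul_one]
      omega)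
  refine ⟨fun v => (500 * ((X ω v).1.val : ℤ) - ψ v) % 1500 / 3, fun v => by beta_reduce; omega,
    fun u v h => ?_⟩
  exact final _ _ _ _ (h3 u v h) _ _ (hψ u v h) (hψ v u h.symm)

end MP93
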