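import Mathlib

/-! Non-backtracking walks, balls and branches in graphs of large girth. -/

namespace MP93
open Finset SimpleGraph

variable {V : Type} (G : SimpleGraph V)

/-- `f 0, ..., f n` is a non-backtracking walk. -/
def NB (f : ℕ → V) (n : ℕ) : Prop :=
  (∀ i, i < n → G.Adj (f i) (f (i + 1))) ∧ ∀ i, i + 2 ≤ n → f i ≠ f (i + 2)

/-- Non-backtracking walks of length less than `g` are injective. -/
def Tr (g : ℕ) : Prop := ∀ f n, NB G f n → n < g → ∀ i j, i < j → j ≤ n → f i ≠ f j

def Near (k : ℕ) (u v : V) : Prop := ∃ p : G.Walk u v, p.length ≤ k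

/-- The branch of depth `k` hanging at `w`, seen from `y`. -/
inductive Br : ℕ → V → V → V → Prop
  | here (k : ℕ) (y w : V) : Br k y w w
  | step {k : ℕ} {y w z v : V} : G.Adj w z → z ≠ y → Br k w z v → Br (k + 1) y w v

variable {G}

lemma NB.shift {f : ℕ → V} {n : ℕ} (h : NB G f n) (a m : ℕ) (hm : a + m ≤ n) :
    NB G (fun i => f (a + i)) m :=
  ⟨fun i hi => h.1 (a + i) (by omega), fun i hi => h.2 (a + i) (by omega)⟩

lemma NB.mono {f : ℕ → V} {n : ℕ} (h : NB G f n) {m : ℕ} (hm : m ≤ n) : NB G f m :=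
  ⟨fun i hi => h.1 i (by omega), fun i hi => h.2 i (by omega)⟩

lemma NB.rev {f : ℕ → V} {n : ℕ} (h : NB G f n) (a : ℕ) (ha : a ≤ n) :
    NB G (fun i => f (a - i)) a := by
  refine ⟨fun i hi => ?_, fun i hi => ?_⟩
  · have := (h.1 (a - (i + 1)) (by omega)).symm
    rwa [show a - (i + 1) + 1 = a - i by omega] at this
  · have := (h.2 (a - (i + 2)) (by omega)).symm
    rwa [show a - (i + 2) + 2 = a - i by omega] at this

/-- prepend a vertex -/
def pre (y : V) (f : ℕ → V) : ℕ → V
  | 0 => y
  | i + 1 => f i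

lemma NB.pre {f : ℕ → V} {n : ℕ} (h : NB G f n) {y : V} (hy : G.Adj y (f 0))
    (hn : 1 ≤ n → y ≠ f 1) : NB G (pre y f) (n + 1) := by
  refine ⟨fun i hi => ?_, fun i hi => ?_⟩
  · cases i with
    | zero => exact hy
    | succ i => exact h.1 i (by omega)
  · cases i with
    | zero => exact hn (by omega)
    | succ i => exact h.2 i (by omega)

/-- glue two walks with the same start -/
def glue (f1 : ℕ → V) (a : ℕ) (f2 : ℕ → V) : ℕ → V :=
  fun i => if i ≤ a then f1 (a - i) else f2 (i - a)

lemma NB.glue {f1 f2 : ℕ → V} {a b : ℕ} (h1 : NB G f1 a) (h2 : NB G f2 b) (h0 : f1 0 = f2 0)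
    (hne : 1 ≤ a → 1 ≤ b → f1 1 ≠ f2 1) : NB G (glue f1 a f2) (a + b) := by
  refine ⟨fun i hi => ?_, fun i hi => ?_⟩
  · simp only [MP93.glue]
    split_ifs with c1 c2 c2
    · have := (h1.1 (a - (i + 1)) (by omega)).symm
      rwa [show a - (i + 1) + 1 = a - i by omega] at this
    · have := h2.1 0 (by omega)
      rwa [show a - i = 0 by omega, show i + 1 - a = 0 + 1 by omega, h0]
    · omega
    · have := h2.1 (i - a) (by omega)
      rwa [show i + 1 - a = i - a + 1 by omega]
  · simp only [MP93.glue]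
    split_ifs with c1 c2 c2
    · have := (h1.2 (a - (i + 2)) (by omega)).symm
      rwa [show a - (i + 2) + 2 = a - i by omega] at this
    · by_cases c3 : i = a
      · have := h2.2 0 (by omega)
        rwa [show a - i = 0 by omega, show i + 2 - a = 0 + 2 by omega, h0]
      · rw [show a - i = 1 by omega, show i + 2 - a = 1 by omega]
        exact hne (by omega) (by omega)
    · omega
    · have := h2.2 (i - a) (by omega)
      rwa [show i + 2 - a = i - a + 2 by omega]

lemma exists_walk (n : ℕ) : ∀ (f : ℕ → V), (∀ i, i < n → G.Adj (f i) (f (i + 1))) →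
    ∃ p : G.Walk (f 0) (f n), p.length = n ∧ ∀ i, i ≤ n → p.getVert i = f i := by
  induction n with
  | zero => intro f _; exact ⟨Walk.nil, rfl, fun i hi => by simp [show i = 0 by omega]⟩
  | succ n ih =>
    intro f hf
    obtain ⟨p, hp, hq⟩ := ih (fun i => f (i + 1)) (fun i hi => hf (i + 1) (by omega))
    refine ⟨Walk.cons (hf 0 (by omega)) p, by simp [hp], fun i hi => ?_⟩
    cases i with
    | zero => simp
    | succ i => simpa using hq i (by omega)

theorem tr_of_girth {g : ℕ} (hg : (g : ℕ∞) ≤ G.egirth) : Tr G g := by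
  intro f n hf hn
  have key : ∀ d, ∀ i, 0 < d → i + d ≤ n → f i ≠ f (i + d) := by
    intro d
    induction d using Nat.strong_induction_on with
    | _ d ih =>
    intro i hd hi heq
    by_cases h1 : d = 1
    · subst h1; exact (hf.1 i (by omega)).ne heq
    by_cases h2 : d = 2
    · subst h2; exact hf.2 i hi heq
    obtain ⟨p, hp, hq⟩ := exists_walk (G := G) (d - 1) (fun j => f (i + 1 + j))
      (fun j hj => hf.1 (i + 1 + j) (by omega))
    have e : f (i + 1 + (d - 1)) = f i := by rw [heq]; congr 1; omega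
    have hpath : p.IsPath := by
      rw [← Walk.IsPath.getVert_injOn_iff]
      intro a ha b hb hab
      simp only [Set.mem_ofPred_eq, hp] at ha hb
      rw [hq a ha, hq b hb] at hab
      by_contra hne
      rcases Nat.lt_or_gt_of_ne hne with h | h
      · refine ih (b - a) (by omega) (i + 1 + a) (by omega) (by omega) ?_
        rw [hab]; congr 1; omega
      · refine ih (a - b) (by omega) (i + 1 + b) (by omega) (by omega) ?_
        rw [← hab]; congr 1; omega
    have hcyc : (Walk.cons (hf.1 i (by omega)) (p.copy rfl e)).IsCycle := by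
      rw [Walk.cons_isCycle_iff]
      refine ⟨by simpa using hpath, fun hm => ?_⟩
      rw [Walk.edges_copy, Sym2.eq_swap] at hm
      have := hpath.eq_snd_of_mem_edges hm
      rw [Walk.snd, hq 1 (by omega)] at this
      exact hf.2 i (by omega) this
    have := hg.trans (egirth_le_length hcyc)
    simp only [Walk.length_cons, Walk.length_copy, hp] at this
    have : g ≤ d - 1 + 1 := by exact_mod_cast this
    omega
  intro i j hij hj
  have := key (j - i) i (by omega) (by omega)
  rwa [show i + (j - i) = j by omega] at this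

lemma Near.refl (k : ℕ) (u : V) : Near G k u u := ⟨Walk.nil, by simp⟩

lemma Near.symm {k : ℕ} {u v : V} (h : Near G k u v) : Near G k v u := by
  obtain ⟨p, hp⟩ := h; exact ⟨p.reverse, by simpa using hp⟩

lemma Near.trans {k l : ℕ} {u v w : V} (h : Near G k u v) (h' : Near G l v w) :
    Near G (k + l) u w := by
  obtain ⟨p, hp⟩ := h; obtain ⟨q, hq⟩ := h'
  exact ⟨p.append q, by simp; omega⟩

lemma Near.mono {k l : ℕ} {u v : V} (h : Near G k u v) (hk : k ≤ l) : Near G l u v := by
  obtain ⟨p, hp⟩ := h; exact ⟨p, hp.trans hk⟩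

lemma Near.adj {u v : V} (h : G.Adj u v) : Near G 1 u v := ⟨h.toWalk, by simp⟩

lemma NB.near {f : ℕ → V} {n : ℕ} (h : NB G f n) {i j : ℕ} (hi : i ≤ n) (hj : j ≤ n) :
    Near G n (f i) (f j) := by
  have key : ∀ a b, a ≤ b → b ≤ n → Near G n (f a) (f b) := by
    intro a b hab hb
    obtain ⟨p, hp, -⟩ := exists_walk (G := G) (b - a) (fun j => f (a + j))
      (fun j hj => h.1 (a + j) (by omega))
    refine ⟨p.copy (by simp) (by congr 1; omega), by simp; omega⟩
  rcases le_total i j with c | c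
  · exact key i j c hj
  · exact (key j i c hi).symm

lemma card_near [Fintype V] [DecidableRel G.Adj] (hG : G.IsRegularOfDegree 3) (k : ℕ) :
    ∀ u, ∃ B : Finset V, B.card ≤ 4 ^ k ∧ ∀ v, Near G k u v → v ∈ B := by
  classical
  induction k with
  | zero =>
    intro u
    refine ⟨{u}, by simp, ?_⟩
    rintro v ⟨p, hp⟩
    simp [(Walk.eq_of_length_eq_zero (Nat.le_zero.1 hp)).symm]
  | succ k ih =>
    intro u
    choose B hB using ih
    refine ⟨insert u ((G.neighborFinset u).biUnion B), ?_, ?_⟩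
    · refine (card_insert_le _ _).trans ?_
      have := card_biUnion_le_card_mul (G.neighborFinset u) B (4 ^ k) (fun z _ => (hB z).1)
      rw [card_neighborFinset_eq_degree, hG u] at this
      have h4 : 0 < 4 ^ k := by positivity
      rw [pow_succ]; omega
    · rintro v ⟨p, hp⟩
      cases p with
      | nil => simp
      | cons h p =>
        refine mem_insert_of_mem (mem_biUnion.2 ⟨_, by simpa using h, (hB _).2 v ⟨p, ?_⟩⟩)
        simpa using hp

lemma Br.mono {k : ℕ} {y w v : V} (h : Br G k y w v) : ∀ {l}, k ≤ l → Br G l y w v := by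
  induction h with
  | here => intro l _; exact Br.here _ _ _
  | step h1 h2 _ ih =>
    intro l hl
    obtain ⟨l, rfl⟩ : ∃ m, l = m + 1 := ⟨l - 1, by omega⟩
    exact Br.step h1 h2 (ih (by omega))

lemma Br.near {k : ℕ} {y w v : V} (h : Br G k y w v) : Near G k w v := by
  induction h with
  | here => exact Near.refl _ _
  | step h1 _ _ ih => exact ((Near.adj h1).trans ih).mono (by omega)

lemma Br.walk {k : ℕ} {y w v : V} (h : Br G k y w v) : G.Adj y w →
    ∃ f n, n ≤ k ∧ NB G f (n + 1) ∧ f 0 = y ∧ f 1 = w ∧ f (n + 1) = v := by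
  induction h with
  | here k y w =>
    intro h
    exact ⟨pre y (fun _ => w), 0, by omega,
      ⟨fun i hi => by obtain rfl : i = 0 := (by omega); exact h, fun i hi => by omega⟩, rfl, rfl, rfl⟩
  | step h1 h2 _ ih =>
    intro h
    obtain ⟨f, n, hn, hf, e0, e1, e2⟩ := ih h1
    exact ⟨pre _ f, n + 1, by omega, hf.pre (e0 ▸ h) (fun _ => e1 ▸ h2.symm), rfl, e0, e2⟩

variable {g : ℕ}

lemma Tr.disj (hT : Tr G g) {k l : ℕ} (hk : k + l + 2 < g) {w x h v : V} (hx : G.Adj w x)
    (hh : G.Adj w h) (hne : x ≠ h) (h1 : Br G k w x v) (h2 : Br G l w h v) : False := by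
  obtain ⟨f1, a, ha, hf1, e0, e1, e2⟩ := h1.walk hx
  obtain ⟨f2, b, hb, hf2, d0, d1, d2⟩ := h2.walk hh
  refine hT _ _ (hf1.glue hf2 (by rw [e0, d0]) (fun _ _ => by rwa [e1, d1])) (by omega) 0
    (a + 1 + (b + 1)) (by omega) le_rfl ?_
  simp [glue, e2, d2]

lemma Tr.notMem (hT : Tr G g) {k : ℕ} (hk : k + 1 < g) {w x : V} (hx : G.Adj w x)
    (h1 : Br G k w x w) : False := by
  obtain ⟨f1, a, ha, hf1, e0, e1, e2⟩ := h1.walk hx
  exact hT _ _ hf1 (by omega) 0 (a + 1) (by omega) le_rfl (by rw [e0, e2])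

lemma Tr.opp (hT : Tr G g) {k l : ℕ} (hk : k + l + 1 < g) {x h v : V} (hx : G.Adj x h)
    (h1 : Br G k x h v) (h2 : Br G l h x v) : False := by
  obtain ⟨f1, a, ha, hf1, e0, e1, e2⟩ := h1.walk hx
  obtain ⟨f2, b, hb, hf2, d0, d1, d2⟩ := h2.walk hx.symm
  refine hT _ _ (hf1.glue (hf2.shift 1 b (by omega)) (by simp [e0, d1])
    (fun _ hb1 => ?_)) (by omega) 0 (a + 1 + b) (by omega) le_rfl ?_
  · rw [e1, ← d0]; exact hf2.2 0 (by omega)
  · simp only [glue]
    rw [if_pos (by omega)]
    split_ifs with c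
    · obtain rfl : b = 0 := by omega
      simp [e2, e0, ← d2, d1]
    · simp [e2, add_comm 1 b, d2]

end MP93
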