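import Pool.Agent.Lib.MP_93a6aa_co.NB
import Pool.Agent.Lib.MP_93a6aa_co.Comb
import Pool.Agent.Lib.MP_93a6aa_co.LLL

/-! The random local colouring process: locality and symmetrisation. -/

set_option linter.unusedSectionVars false

namespace MP93
open Finset SimpleGraph

structure Setup {V : Type} (G : SimpleGraph V) where
  S : Set V
  t : V → ℕ
  p : V → V
  q : V → V
  R : ℕ
  D : ℕ
  g : ℕ
  X : (V → St) → V → St
  tr : Tr G g
  tle : ∀ v, t v ≤ R
  tne : ∀ u v, G.Adj u v → t u ≠ t v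
  padj : ∀ v ∉ S, G.Adj v (p v) ∧ t (p v) < t v
  qadj : ∀ v ∉ S, G.Adj v (q v) ∧ t (q v) < t v
  pq : ∀ v ∉ S, ∀ u, G.Adj v u → t u < t v → u = p v ∨ u = q v
  late : ∀ v ∉ S, ∃ u, G.Adj v u ∧ t v < t u
  sep : ∀ u ∈ S, ∀ v ∈ S, Near G D u v → u = v
  XS : ∀ ω, ∀ v ∈ S, X ω v = ω v
  XN : ∀ ω, ∀ v ∉ S, X ω v = comb (X ω (p v)) (X ω (q v)) (ω v).2

def Ind {V α : Type} (U : V → Prop) (F : (V → St) → α) : Prop :=
  ∀ ω ω', (∀ v, ¬ U v → ω v = ω' v) → F ω = F ω'

def Dep {V α : Type} (U : V → Prop) (F : (V → St) → α) : Prop :=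
  ∀ ω ω', (∀ v, U v → ω v = ω' v) → F ω = F ω'

lemma Ind.mono {V α : Type} {U U' : V → Prop} {F : (V → St) → α} (h : Ind U F)
    (hU : ∀ v, U' v → U v) : Ind U' F :=
  fun ω ω' e => h ω ω' fun v hv => e v fun h' => hv (hU v h')

lemma Dep.ind {V α : Type} {U U' : V → Prop} {F : (V → St) → α} (h : Dep U F)
    (hU : ∀ v, U v → U' v → False) : Ind U' F :=
  fun ω ω' e => h ω ω' fun v hv => e v (hU v hv)

namespace Setup
variable {V : Type} {G : SimpleGraph V} (T : Setup G)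

def Eqv (g : St) (U : V → Prop) (ω ω' : V → St) : Prop :=
  ∀ v, U v → (v ∈ T.S → ω' v = act g (ω v)) ∧ (v ∉ T.S → (ω' v).2 = (ω v).2)

lemma X_eqv {g : St} {ω ω' : V → St} (k : ℕ) : ∀ y w, T.t w ≤ k → T.Eqv g (Br G k y w) ω ω' →
    (T.t w < T.t y ∨ T.X ω' y = act g (T.X ω y)) → T.X ω' w = act g (T.X ω w) := by
  induction k with
  | zero =>
    intro y w hw he _
    by_cases hS : w ∈ T.S
    · rw [T.XS _ _ hS, T.XS _ _ hS]; exact (he w (Br.here _ _ _)).1 hS
    · have := (T.padj w hS).2; omega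
  | succ k ih =>
    intro y w hw he hy
    by_cases hS : w ∈ T.S
    · rw [T.XS _ _ hS, T.XS _ _ hS]; exact (he w (Br.here _ _ _)).1 hS
    · have key : ∀ u, G.Adj w u → T.t u < T.t w → T.X ω' u = act g (T.X ω u) := by
        intro u h1 h2
        by_cases c : u = y
        · subst c; exact hy.resolve_left (by omega)
        · exact ih w u (by omega) (fun v hv => he v (Br.step h1 c hv)) (Or.inl h2)
      rw [T.XN _ _ hS, T.XN _ _ hS, key _ (T.padj w hS).1 (T.padj w hS).2,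
        key _ (T.qadj w hS).1 (T.qadj w hS).2, (he w (Br.here _ _ _)).2 hS, comb_act]

lemma eqv_of_eq {U : V → Prop} {ω ω' : V → St} (h : ∀ v, U v → ω v = ω' v) :
    T.Eqv (0, false) U ω ω' := fun v hv => by rw [h v hv, act_zero]; simp

lemma X_dep {y w : V} (h : T.t w < T.t y) : Dep (Br G T.R y w) (fun ω => T.X ω w) := by
  intro ω ω' e
  have := T.X_eqv T.R y w (T.tle w) (T.eqv_of_eq e) (Or.inl h)
  rw [act_zero] at this
  exact this.symm

lemma X_ind {y w : V} {k : ℕ} (hk : T.R + k + 1 < T.g) (ha : G.Adj y w) (h : T.t y < T.t w) :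
    Ind (Br G k y w) (fun ω => T.X ω y) :=
  (T.X_dep h).ind fun _ h1 h2 => T.tr.opp hk ha.symm h1 h2

variable [Fintype V] [DecidableEq V] [DecidableRel G.Adj]

noncomputable def N (s : Bool) : ℕ → V → V → (V → St) → ℝ
  | 0, _, _, _ => 1
  | i + 1, y, w, ω => ∑ z ∈ (G.neighborFinset w).erase y, wt s (T.X ω w) (T.X ω z) * N s i w z ω

lemma N_nonneg (s : Bool) (i : ℕ) : ∀ y w ω, 0 ≤ T.N s i y w ω := by
  induction i with
  | zero => intro y w ω; simp [N]
  | succ i ih => intro y w ω; exact sum_nonneg fun z _ => mul_nonneg (wt_nonneg _ _ _) (ih _ _ _)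

lemma N_eqv {s : Bool} {a : ZMod 3} {ω ω' : V → St} (i : ℕ) : ∀ y w,
    T.Eqv (a, false) (Br G (T.R + i) y w) ω ω' →
    (T.t w < T.t y ∨ T.X ω' y = act (a, false) (T.X ω y)) → T.N s i y w ω' = T.N s i y w ω := by
  induction i with
  | zero => intros; rfl
  | succ i ih =>
    intro y w he hy
    have hw := T.X_eqv _ y w ((T.tle w).trans (by omega)) he hy
    refine sum_congr rfl fun z hz => ?_
    have h1 : G.Adj w z := by simpa using (mem_erase.1 hz).2
    have he' : T.Eqv (a, false) (Br G (T.R + i) w z) ω ω' :=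
      fun v hv => he v (Br.step h1 (mem_erase.1 hz).1 hv)
    rw [ih w z he' (Or.inr hw), T.X_eqv _ w z ((T.tle z).trans (by omega)) he' (Or.inr hw), hw,
      wt_act]

lemma N_dep (s : Bool) (i : ℕ) {y w : V} (h : T.t w < T.t y) :
    Dep (Br G (T.R + i) y w) (T.N s i y w) :=
  fun _ _ e => (T.N_eqv i y w (T.eqv_of_eq e) (Or.inl h)).symm

open Classical in
noncomputable def sg (g : St) (b : Bool) (U : V → Prop) (w : V) (ω : V → St) : V → St :=
  fun v => if U v ∧ v ∈ T.S then act g (ω v) else if v = w then ((ω v).1, xor b (ω v).2) else ω v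

lemma sum_sg (g : St) (b : Bool) (U : V → Prop) (w : V) (Φ : (V → St) → ℝ) :
    ∑ ω, Φ ω = ∑ ω, Φ (T.sg g b U w ω) := by
  refine (Function.Bijective.sum_comp (Function.Injective.bijective_of_finite ?_) Φ).symm
  intro ω ω' h
  funext v
  have := congrFun h v
  simp only [sg] at this
  split_ifs at this
  · exact act_inj _ _ _ this
  · rw [Prod.mk.injEq] at this
    exact Prod.ext this.1 (by simpa using this.2)
  · exact this

omit [Fintype V] [DecidableRel G.Adj] in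
lemma sg_out (g : St) (b : Bool) (U : V → Prop) (w : V) (ω : V → St) (v : V)
    (hv : ¬ (U v ∨ v = w)) : T.sg g b U w ω v = ω v := by
  push Not at hv
  simp [sg, hv.1, hv.2]

omit [Fintype V] [DecidableRel G.Adj] in
lemma sg_eqv (g : St) (b : Bool) (U : V → Prop) (w : V) (ω : V → St) (hw : ¬ U w) :
    T.Eqv g U ω (T.sg g b U w ω) := by
  intro v hv
  have : v ≠ w := fun e => hw (e ▸ hv)
  constructor <;> intro h <;> simp [sg, hv, h, this]

lemma sym {w u h : V} {o : Bool} {k : ℕ} (hw : w ∉ T.S) (hk : T.R ≤ k) (hkg : k + 1 < T.g)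
    (hh : G.Adj w h) (ht : T.t h < T.t w)
    (ho : ∀ ω, T.X ω w = cm o (T.X ω u) (T.X ω h) (ω w).2)
    (hu : Ind (fun v => Br G k w h v ∨ v = w) (fun ω => T.X ω u)) (g : St) (b : Bool)
    (F : (V → St) → ℝ) (hF : ∀ ω, F (T.sg g b (Br G k w h) w ω) = F ω) (Φ : St → St → St → ℝ) :
    ∑ ω, F ω * Φ (T.X ω u) (T.X ω h) (T.X ω w) = ∑ ω, F ω *
      Φ (T.X ω u) (act g (T.X ω h)) (cm o (T.X ω u) (act g (T.X ω h)) (xor b (ω w).2)) := by
  rw [T.sum_sg g b (Br G k w h) w]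
  refine sum_congr rfl fun ω _ => ?_
  have e1 : T.X (T.sg g b (Br G k w h) w ω) u = T.X ω u := hu _ _ (T.sg_out g b _ w ω)
  have e2 : T.X (T.sg g b (Br G k w h) w ω) h = act g (T.X ω h) :=
    T.X_eqv k w h ((T.tle h).trans hk) (T.sg_eqv g b _ w ω (T.tr.notMem hkg hh)) (Or.inl ht)
  have e3 : (T.sg g b (Br G k w h) w ω w).2 = xor b (ω w).2 := by simp [sg, hw]
  rw [hF, ho, e1, e2, e3]

lemma sym12 {w u h : V} {o : Bool} (hw : w ∉ T.S) (hkg : T.R + 1 < T.g)
    (hh : G.Adj w h) (ht : T.t h < T.t w)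
    (ho : ∀ ω, T.X ω w = cm o (T.X ω u) (T.X ω h) (ω w).2)
    (hu : Ind (fun v => Br G T.R w h v ∨ v = w) (fun ω => T.X ω u))
    (F : (V → St) → ℝ) (hF : Ind (fun v => Br G T.R w h v ∨ v = w) F) (Φ : St → St → ℝ)
    (ψ : St → ℝ) (hψ : ∀ x y b0, ∑ g : St, ∑ b : Bool, Φ x (cm o x (act g y) (xor b b0)) = 12 * ψ x) :
    ∑ ω, F ω * Φ (T.X ω u) (T.X ω w) = ∑ ω, F ω * ψ (T.X ω u) := by
  have key : ∑ _g : St, ∑ _b : Bool, ∑ ω, F ω * Φ (T.X ω u) (T.X ω w) =
      ∑ g : St, ∑ b : Bool, ∑ ω, F ω *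
        Φ (T.X ω u) (cm o (T.X ω u) (act g (T.X ω h)) (xor b (ω w).2)) :=
    sum_congr rfl fun g _ => sum_congr rfl fun b _ =>
      T.sym hw le_rfl hkg hh ht ho hu g b F (fun ω => hF _ _ (T.sg_out g b _ w ω)) (fun x _ z => Φ x z)
  have e : ∑ g : St, ∑ b : Bool, ∑ ω, F ω *
        Φ (T.X ω u) (cm o (T.X ω u) (act g (T.X ω h)) (xor b (ω w).2)) =
      12 * ∑ ω, F ω * ψ (T.X ω u) := by
    simp_rw [sum_comm (s := (univ : Finset Bool))]
    rw [sum_comm, mul_sum]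
    refine sum_congr rfl fun ω _ => ?_
    simp_rw [← mul_sum]
    rw [hψ]; ring
  rw [e] at key
  simp only [sum_const, card_univ, Fintype.card_prod, ZMod.card, Fintype.card_bool, nsmul_eq_mul]
    at key
  push_cast at key
  linarith

lemma sym6 {w u h : V} {o : Bool} {k : ℕ} (hw : w ∉ T.S) (hk : T.R ≤ k) (hkg : k + 1 < T.g)
    (hh : G.Adj w h) (ht : T.t h < T.t w)
    (ho : ∀ ω, T.X ω w = cm o (T.X ω u) (T.X ω h) (ω w).2)
    (hu : Ind (fun v => Br G k w h v ∨ v = w) (fun ω => T.X ω u))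
    (F : (V → St) → ℝ) (hF : ∀ a b ω, F (T.sg (a, false) b (Br G k w h) w ω) = F ω) (s : Bool) :
    ∑ ω, F ω * (wt s (T.X ω u) (T.X ω w) * wt s (T.X ω w) (T.X ω h)) =
      40201 / 120000 * ∑ ω, F ω := by
  have key : ∑ _a : ZMod 3, ∑ _b : Bool, ∑ ω, F ω *
      (wt s (T.X ω u) (T.X ω w) * wt s (T.X ω w) (T.X ω h)) = _ :=
    sum_congr rfl fun a _ => sum_congr rfl fun b _ =>
      T.sym hw hk hkg hh ht ho hu (a, false) b F (hF a b) (fun x y z => wt s x z * wt s z y)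
  have e : ∑ a : ZMod 3, ∑ b : Bool, ∑ ω, F ω *
      (wt s (T.X ω u) (cm o (T.X ω u) (act (a, false) (T.X ω h)) (xor b (ω w).2)) *
       wt s (cm o (T.X ω u) (act (a, false) (T.X ω h)) (xor b (ω w).2)) (act (a, false) (T.X ω h)))
      = 6 * (40201 / 120000 * ∑ ω, F ω) := by
    simp_rw [sum_comm (s := (univ : Finset Bool))]
    rw [sum_comm, mul_sum, mul_sum]
    refine sum_congr rfl fun ω _ => ?_
    simp_rw [← mul_sum]
    rw [tabP]; ring
  rw [e] at key
  simp only [sum_const, card_univ, ZMod.card, Fintype.card_bool, nsmul_eq_mul] at key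
  push_cast at key
  linarith

lemma half {y w : V} (h : T.t w < T.t y) (s : Bool) (a b : ℝ) :
    ∑ ω, sel s (T.X ω w).2 a b = (a + b) / 2 * Fintype.card (V → St) := by
  have key := T.sum_sg (0, true) false (fun _ => True) w (fun ω => sel s (T.X ω w).2 a b)
  have e : ∀ ω, T.X (T.sg (0, true) false (fun _ => True) w ω) w = act (0, true) (T.X ω w) := by
    intro ω
    refine T.X_eqv T.R y w (T.tle w) (fun v _ => ?_) (Or.inl h)
    constructor <;> intro hv <;> simp only [sg, hv, and_true, and_false, if_true, if_false]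
    split_ifs <;> simp
  simp only [e, act_snd] at key
  have : ∑ ω, sel s (T.X ω w).2 a b + ∑ ω, sel s (!(T.X ω w).2) a b =
      (a + b) * Fintype.card (V → St) := by
    rw [← sum_add_distrib, ← card_univ, mul_comm, ← nsmul_eq_mul, ← sum_const]
    refine sum_congr rfl fun ω _ => ?_
    cases s <;> cases (T.X ω w).2 <;> simp [sel, add_comm]
  linarith

omit [Fintype V] [DecidableEq V] [DecidableRel G.Adj] in
lemma two {w u h : V} (hw : w ∉ T.S) (hu : G.Adj w u) (hh : G.Adj w h) (hne : u ≠ h)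
    (tu : T.t u < T.t w) (th : T.t h < T.t w) :
    ∃ o, ∀ ω, T.X ω w = cm o (T.X ω u) (T.X ω h) (ω w).2 := by
  rcases T.pq w hw u hu tu with e1 | e1 <;> rcases T.pq w hw h hh th with e2 | e2
  · exact absurd (e1.trans e2.symm) hne
  · exact ⟨true, fun ω => by rw [T.XN ω w hw, ← e1, ← e2]; rfl⟩
  · exact ⟨false, fun ω => by rw [T.XN ω w hw, ← e1, ← e2]; rfl⟩
  · exact absurd (e1.trans e2.symm) hne

omit [Fintype V] [DecidableEq V] [DecidableRel G.Adj] in
lemma one {w u : V} (hw : w ∉ T.S) (hu : ∀ z, G.Adj w z → T.t z < T.t w → z = u) (ω : V → St) :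
    T.X ω w = comb (T.X ω u) (T.X ω u) (ω w).2 := by
  rw [T.XN ω w hw, hu _ (T.padj w hw).1 (T.padj w hw).2, hu _ (T.qadj w hw).1 (T.qadj w hw).2]

end Setup
end MP93
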