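import Pool.Agent.Lib.MP_93a6aa_co.Bound

/-! Applying the local lemma: no long non-backtracking walk is nearly tight. -/

set_option linter.unusedSectionVars false

namespace MP93
open Finset SimpleGraph

variable {V : Type}

def tl (f : ℕ → V) : ℕ → List V
  | 0 => []
  | n + 1 => f 2 :: tl (fun j => f (j + 1)) n

lemma tl_inj (n : ℕ) : ∀ f g : ℕ → V, tl f n = tl g n → ∀ j, j < n → f (j + 2) = g (j + 2) := by
  induction n with
  | zero => intro f g _ j hj; omega
  | succ n ih =>
    intro f g h j hj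
    simp only [tl, List.cons.injEq] at h
    cases j with
    | zero => exact h.1
    | succ j => exact ih _ _ h.2 j (by omega)

def ex {L : ℕ} (Q : Fin (L + 1) → V) (j : ℕ) : V := Q ⟨min j L, by omega⟩

namespace Setup
variable {G : SimpleGraph V} (T : Setup G)
variable [Fintype V] [DecidableEq V] [DecidableRel G.Adj]

def Ext (G : SimpleGraph V) [DecidableRel G.Adj] : ℕ → V → V → Finset (List V)
  | 0, _, _ => {[]}
  | n + 1, y, w => ((G.neighborFinset w).erase y).biUnion fun z => (Ext G n w z).image (z :: ·)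

noncomputable def pw (s : Bool) (ω : V → St) : V → List V → ℝ
  | _, [] => 1
  | w, z :: l => wt s (T.X ω w) (T.X ω z) * pw s ω z l

lemma pw_nonneg (s : Bool) (ω : V → St) (l : List V) : ∀ w, 0 ≤ T.pw s ω w l := by
  induction l with
  | nil => intro w; simp [pw]
  | cons z l ih => intro w; exact mul_nonneg (wt_nonneg _ _ _) (ih z)

lemma sum_pw (s : Bool) (ω : V → St) (n : ℕ) : ∀ y w,
    ∑ l ∈ Ext G n y w, T.pw s ω w l = T.N s n y w ω := by
  induction n with
  | zero => intro y w; simp [Ext, pw, N]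
  | succ n ih =>
    intro y w
    rw [Ext, sum_biUnion, N]
    · refine sum_congr rfl fun z _ => ?_
      rw [sum_image (fun a _ b _ h => by simpa using h), ← ih, mul_sum]
      rfl
    · intro a _ b _ hab
      simp only [Function.onFun, Finset.disjoint_left, mem_image]
      rintro l ⟨l1, -, rfl⟩ ⟨l2, -, h⟩
      exact hab (List.cons.inj h).1.symm

lemma tl_mem (n : ℕ) : ∀ f : ℕ → V, NB G f (n + 1) → tl f n ∈ Ext G n (f 0) (f 1) := by
  induction n with
  | zero => intro f _; simp [tl, Ext]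
  | succ n ih =>
    intro f hf
    simp only [tl, Ext, mem_biUnion, mem_image, mem_erase, mem_neighborFinset]
    refine ⟨f 2, ⟨(hf.2 0 (by omega)).symm, hf.1 1 (by omega)⟩, _, ih (fun j => f (j + 1)) ?_, rfl⟩
    exact ⟨fun i hi => hf.1 (i + 1) (by omega), fun i hi => hf.2 (i + 1) (by omega)⟩

lemma pw_tl (s : Bool) (ω : V → St) (n : ℕ) : ∀ f : ℕ → V, T.pw s ω (f 1) (tl f n) =
    ∏ j ∈ range n, wt s (T.X ω (f (j + 1))) (T.X ω (f (j + 2))) := by
  induction n with
  | zero => intro f; simp [tl, pw]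
  | succ n ih => intro f; rw [tl, pw, prod_range_succ', mul_comm, ih (fun j => f (j + 1))]

noncomputable def PW (s : Bool) (ω : V → St) (f : ℕ → V) (L : ℕ) : ℝ :=
  ∏ j ∈ range L, wt s (T.X ω (f j)) (T.X ω (f (j + 1)))

lemma PW_nonneg (s : Bool) (ω : V → St) (f : ℕ → V) (L : ℕ) : 0 ≤ T.PW s ω f L :=
  prod_nonneg fun _ _ => wt_nonneg _ _ _

lemma PW_split (s : Bool) (ω : V → St) (f : ℕ → V) (a b : ℕ) : T.PW s ω f (a + 1 + b) =
    T.pw (!s) ω (f a) (tl (fun j => f (a + 1 - j)) a) * (wt s (T.X ω (f a)) (T.X ω (f (a + 1))) *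
      T.pw s ω (f (a + 1)) (tl (fun j => f (a + j)) b)) := by
  have e1 := T.pw_tl (!s) ω a (fun j => f (a + 1 - j))
  have e2 := T.pw_tl s ω b (fun j => f (a + j))
  simp only [Nat.add_sub_cancel] at e1
  rw [e1, e2, PW, prod_range_add, prod_range_succ, mul_assoc, ← prod_range_reflect]
  congr 1
  · refine prod_congr rfl fun j hj => ?_
    have := mem_range.1 hj
    rw [wt_swap, show a + 1 - (j + 2) = a - 1 - j by omega, show a + 1 - (j + 1) = a - 1 - j + 1 by omega]
  · congr 1
    refine prod_congr rfl fun j _ => ?_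
    rw [show a + 1 + j = a + (j + 1) by omega, show a + (j + 1) + 1 = a + (j + 2) by omega]

open Classical in
lemma cut (s : Bool) (ω : V → St) {a b L : ℕ} (hL : a + 1 + b = L) (x h : V) :
    ∑ Q ∈ (univ : Finset (Fin (L + 1) → V)).filter
      (fun Q => NB G (ex Q) L ∧ ex Q a = x ∧ ex Q (a + 1) = h), T.PW s ω (ex Q) L ≤
      T.N (!s) a h x ω * (wt s (T.X ω x) (T.X ω h) * T.N s b x h ω) := by
  subst hL
  set I := (univ : Finset (Fin (a + 1 + b + 1) → V)).filter
      (fun Q => NB G (ex Q) (a + 1 + b) ∧ ex Q a = x ∧ ex Q (a + 1) = h) with hI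
  let φ : (Fin (a + 1 + b + 1) → V) → List V × List V :=
    fun Q => (tl (fun j => ex Q (a + 1 - j)) a, tl (fun j => ex Q (a + j)) b)
  let Ψ : List V × List V → ℝ := fun l =>
    T.pw (!s) ω x l.1 * (wt s (T.X ω x) (T.X ω h) * T.pw s ω h l.2)
  have hinj : Set.InjOn φ I := by
    intro Q hQ Q' hQ' e
    obtain ⟨-, q1, q2⟩ := (mem_filter.1 hQ).2
    obtain ⟨-, r1, r2⟩ := (mem_filter.1 hQ').2
    have e1 := tl_inj _ _ _ (congrArg Prod.fst e)
    have e2 := tl_inj _ _ _ (congrArg Prod.snd e)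
    have key : ∀ j, j ≤ a + 1 + b → ex Q j = ex Q' j := by
      intro j hj
      rcases lt_trichotomy j a with c | rfl | c
      · have := e1 (a - 1 - j) (by omega)
        simpa only [show a + 1 - (a - 1 - j + 2) = j by omega] using this
      · rw [q1, r1]
      · by_cases c' : j = a + 1
        · rw [c', q2, r2]
        · have := e2 (j - a - 2) (by omega)
          simpa only [show a + (j - a - 2 + 2) = j by omega] using this
    funext j
    have := key j (by omega)
    simpa only [ex, min_eq_left (show (j : ℕ) ≤ a + 1 + b by omega)] using this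
  have e : ∑ Q ∈ I, T.PW s ω (ex Q) (a + 1 + b) = ∑ l ∈ I.image φ, Ψ l := by
    rw [sum_image hinj]
    refine sum_congr rfl fun Q hQ => ?_
    obtain ⟨-, q1, q2⟩ := (mem_filter.1 hQ).2
    rw [PW_split, q1, q2]
  rw [e, ← T.sum_pw, ← T.sum_pw, mul_sum, sum_mul_sum, ← sum_product']
  refine sum_le_sum_of_subset_of_nonneg (fun l hl => ?_) fun l _ _ =>
    mul_nonneg (T.pw_nonneg _ _ _ _) (mul_nonneg (wt_nonneg _ _ _) (T.pw_nonneg _ _ _ _))
  obtain ⟨Q, hQ, rfl⟩ := mem_image.1 hl
  obtain ⟨q0, q1, q2⟩ := (mem_filter.1 hQ).2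
  have m1 := tl_mem a _ (q0.rev (a + 1) (by omega))
  have m2 := tl_mem b _ (q0.shift a (b + 1) (by omega))
  simp only [Nat.sub_zero, Nat.add_sub_cancel, add_zero, q1, q2] at m1 m2
  exact mem_product.2 ⟨m1, m2⟩

lemma X_near {ω ω' : V → St} (k : ℕ) : ∀ w, T.t w ≤ k → (∀ v, Near G k w v → ω v = ω' v) →
    T.X ω w = T.X ω' w := by
  induction k with
  | zero =>
    intro w hw he
    by_cases hS : w ∈ T.S
    · rw [T.XS _ _ hS, T.XS _ _ hS]; exact he w (Near.refl _ _)
    · have := (T.padj w hS).2; omega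
  | succ k ih =>
    intro w hw he
    by_cases hS : w ∈ T.S
    · rw [T.XS _ _ hS, T.XS _ _ hS]; exact he w (Near.refl _ _)
    · have key : ∀ u, G.Adj w u → T.t u < T.t w → T.X ω u = T.X ω' u := fun u h1 h2 =>
        ih u (by omega) fun v hv => he v (((Near.adj h1).trans hv).mono (by omega))
      rw [T.XN _ _ hS, T.XN _ _ hS, key _ (T.padj w hS).1 (T.padj w hS).2,
        key _ (T.qadj w hS).1 (T.qadj w hS).2, he w (Near.refl _ _)]

theorem good (hG : G.IsRegularOfDegree 3) (hD : (988 / 989 : ℝ) ^ T.D ≤ 1 / 400000) (s : Bool)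
    {L : ℕ} (hg : 2 * T.R + T.D + L + 2 < T.g) {M : ℝ} (hM : 0 < M)
    (hnum : ((L : ℝ) + 2) * 4 ^ (2 * T.R + 1) * ((L + 1) * (3 *
      (M * (2 * (800 / (988 / 989) ^ T.D) ^ 2 * (989 / 1000) ^ L)))) ≤ 1 / 4) :
    ∃ ω, ∀ f, NB G f (L + 1) → M * T.PW s ω f (L + 1) < 1 := by
  classical
  have hN : (0 : ℝ) < Fintype.card (V → St) := by exact_mod_cast Fintype.card_pos
  let I : Finset (Fin (L + 1 + 1) → V) := univ.filter fun Q => NB G (ex Q) (L + 1)
  let sup : (Fin (L + 1 + 1) → V) → Finset V := fun Q =>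
    univ.filter fun v => ∃ j, j ≤ L + 1 ∧ Near G T.R (ex Q j) v
  let p : (Fin (L + 1 + 1) → V) → ℝ := fun Q =>
    M * (∑ ω, T.PW s ω (ex Q) (L + 1)) / Fintype.card (V → St)
  have p0 : ∀ Q, 0 ≤ p Q := fun Q =>
    div_nonneg (mul_nonneg hM.le (sum_nonneg fun ω _ => T.PW_nonneg _ _ _ _)) hN.le
  set c : ℝ := M * (2 * (800 / (988 / 989) ^ T.D) ^ 2 * (989 / 1000) ^ L) with hc
  have hc0 : 0 ≤ c := by positivity
  have h1 : ∀ a, a ≤ L → ∀ x h, G.Adj x h → ∑ Q ∈ univ.filter
      (fun Q : Fin (L + 1 + 1) → V => NB G (ex Q) (L + 1) ∧ ex Q a = x ∧ ex Q (a + 1) = h), p Q ≤ c := by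
    intro a ha x h hadj
    simp only [p]
    rw [← sum_div, ← mul_sum, sum_comm, div_le_iff₀ hN, hc, mul_assoc]
    refine mul_le_mul_of_nonneg_left ?_ hM.le
    refine le_trans (sum_le_sum fun ω _ => ?_)
      (T.two_sided hG hD s (a := a) (b := L - a) (by omega) hg hadj)
    have := T.cut s ω (a := a) (b := L - a) (L := L + 1) (by omega) x h
    refine le_trans (le_of_eq ?_) this
    congr
  have hs : ∀ j ∈ I, ∑ k ∈ I.filter (fun k => ¬ Disjoint (sup j) (sup k)), p k ≤ 1 / 4 := by
    intro j hj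
    choose B hB using card_near hG (2 * T.R + 1)
    let U := (range (L + 2)).biUnion fun i => B (ex j i)
    have hU : (U.card : ℝ) ≤ (L + 2) * 4 ^ (2 * T.R + 1) := by
      have := card_biUnion_le_card_mul (range (L + 2)) (fun i => B (ex j i)) _ (fun i _ => (hB _).1)
      rw [card_range] at this
      exact_mod_cast this
    have hcov : ∀ k ∈ I.filter (fun k => ¬ Disjoint (sup j) (sup k)), p k ≤
        ∑ x ∈ U, ∑ a ∈ range (L + 1), ∑ h ∈ G.neighborFinset x,
          if NB G (ex k) (L + 1) ∧ ex k a = x ∧ ex k (a + 1) = h then p k else 0 := by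
      intro k hk
      obtain ⟨hk1, hk2⟩ := mem_filter.1 hk
      have hnb := (mem_filter.1 hk1).2
      obtain ⟨v, v1, v2⟩ := not_disjoint_iff.1 hk2
      obtain ⟨i, i1, i2⟩ := (mem_filter.1 v1).2
      obtain ⟨a, a1, a2⟩ := (mem_filter.1 v2).2
      obtain ⟨a', b1, b2⟩ : ∃ a', a' ≤ L ∧ Near G (2 * T.R + 1) (ex j i) (ex k a') := by
        by_cases ca : a ≤ L
        · exact ⟨a, ca, (i2.trans a2.symm).mono (by omega)⟩
        · obtain rfl : a = L + 1 := by omega
          exact ⟨L, le_rfl, ((i2.trans a2.symm).trans (Near.adj (hnb.1 L (by omega)).symm)).mono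
            (by omega)⟩
      have nn : ∀ x a h, 0 ≤ (if NB G (ex k) (L + 1) ∧ ex k a = x ∧ ex k (a + 1) = h then p k
          else 0) := fun x a h => by split_ifs; exacts [p0 k, le_rfl]
      refine le_trans ?_ (single_le_sum (f := fun x => ∑ a ∈ range (L + 1),
        ∑ h ∈ G.neighborFinset x, if NB G (ex k) (L + 1) ∧ ex k a = x ∧ ex k (a + 1) = h then p k
          else 0) (fun x _ => sum_nonneg fun a _ => sum_nonneg fun h _ => nn x a h)
        (a := ex k a') (mem_biUnion.2 ⟨i, mem_range.2 (by omega), (hB _).2 _ b2⟩))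
      refine le_trans ?_ (single_le_sum (f := fun a =>
        ∑ h ∈ G.neighborFinset (ex k a'), if NB G (ex k) (L + 1) ∧ ex k a = ex k a' ∧
          ex k (a + 1) = h then p k else 0) (fun a _ => sum_nonneg fun h _ => nn _ a h)
        (a := a') (mem_range.2 (by omega)))
      refine le_trans ?_ (single_le_sum (f := fun h => if NB G (ex k) (L + 1) ∧ ex k a' = ex k a' ∧
          ex k (a' + 1) = h then p k else 0) (fun h _ => nn _ a' h)
        (a := ex k (a' + 1)) (by simpa using hnb.1 a' (by omega)))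
      simp [hnb]
    refine (sum_le_sum hcov).trans ?_
    refine le_trans (sum_le_sum_of_subset_of_nonneg (subset_univ _) fun k _ _ =>
      sum_nonneg fun x _ => sum_nonneg fun a _ => sum_nonneg fun h _ => by
        split_ifs; exacts [p0 k, le_rfl]) ?_
    rw [sum_comm]
    refine le_trans (sum_le_card_nsmul U _ (((L : ℝ) + 1) * (3 * c)) fun x _ => ?_) ?_
    · rw [sum_comm]
      refine le_trans (sum_le_card_nsmul _ _ (3 * c) fun a ha => ?_) (by simp)
      rw [sum_comm]
      refine le_trans (sum_le_card_nsmul _ _ c fun h hh => ?_) ?_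
      · rw [← sum_filter]
        exact h1 a (by simpa [Nat.lt_succ_iff] using ha) x h (by simpa using hh)
      · rw [card_neighborFinset_eq_degree, hG x]; simp
    · rw [nsmul_eq_mul]
      exact (mul_le_mul_of_nonneg_right hU (by positivity)).trans hnum
  obtain ⟨ω, hω⟩ := lll I (fun Q ω => 1 ≤ M * T.PW s ω (ex Q) (L + 1)) sup p
    (fun Q _ ω ω' e => by
      have : T.PW s ω (ex Q) (L + 1) = T.PW s ω' (ex Q) (L + 1) := by
        have key : ∀ j, j ≤ L + 1 → T.X ω (ex Q j) = T.X ω' (ex Q j) := fun j hj =>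
          T.X_near T.R _ (T.tle _) fun v hv => e v (mem_filter.2 ⟨mem_univ _, j, hj, hv⟩)
        refine prod_congr rfl fun j hj => ?_
        have := mem_range.1 hj
        rw [key j (by omega), key (j + 1) (by omega)]
      rw [this])
    (fun Q _ => p0 Q)
    (fun Q hQ => le_trans (single_le_sum (fun k _ => p0 k) (mem_filter.2 ⟨hQ,
      not_disjoint_iff.2 ⟨ex Q 0, mem_filter.2 ⟨mem_univ _, 0, by omega, Near.refl _ _⟩,
        mem_filter.2 ⟨mem_univ _, 0, by omega, Near.refl _ _⟩⟩⟩)) (hs Q hQ))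
    (fun Q _ => by
      simp only [p]
      rw [div_mul_cancel₀ _ hN.ne', mul_sum]
      refine sum_le_sum fun ω _ => ?_
      split_ifs with c
      · exact c
      · exact mul_nonneg hM.le (T.PW_nonneg _ _ _ _))
    (fun j hj => by
      refine le_trans (le_of_eq ?_) (hs j hj)
      congr)
  refine ⟨ω, fun f hf => ?_⟩
  have e : ∀ j, j ≤ L + 1 → ex (fun i : Fin (L + 1 + 1) => f i) j = f j := fun j hj => by
    simp [ex, min_eq_left hj]
  have := hω (fun i => f i) (mem_filter.2 ⟨mem_univ _, fun i hi => by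
    rw [e i (by omega), e (i + 1) (by omega)]; exact hf.1 i hi, fun i hi => by
    rw [e i (by omega), e (i + 2) (by omega)]; exact hf.2 i hi⟩)
  rw [not_le] at this
  refine lt_of_eq_of_lt ?_ this
  congr 1
  refine prod_congr rfl fun j hj => ?_
  have := mem_range.1 hj
  rw [e j (by omega), e (j + 1) (by omega)]

end Setup
end MP93
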